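import Mathlib

/-! Fourier calculus on the cube for laws of small bias. -/

namespace Pool.Agent.Lib.MP_ee7726_lc.SB

open Finset

variable {ι : Type} [Fintype ι] [DecidableEq ι]

/-- the sign of a bit -/
def sg (b : Bool) : ℝ := if b then -1 else 1

/-- the parity function of a set of coordinates -/
def chi (S : Finset ι) (x : ι → Bool) : ℝ := ∏ v ∈ S, sg (x v)

/-- a probability law on the cube whose parities of size at most `d` have bias at most `δ` -/
structure Biased (p : (ι → Bool) → ℝ) (d : ℕ) (δ : ℝ) : Prop where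
  nonneg : ∀ x, 0 ≤ p x
  total : ∑ x, p x = 1
  bias : ∀ S : Finset ι, S.Nonempty → S.card ≤ d → |∑ x, p x * chi S x| ≤ δ

/-- the uniform law -/
noncomputable def unif (_ : ι → Bool) : ℝ := (1 / 2) ^ Fintype.card ι

lemma sg_mul_self (b : Bool) : sg b * sg b = 1 := by cases b <;> simp [sg]
lemma sg_xor (a b : Bool) : sg (xor a b) = sg a * sg b := by cases a <;> cases b <;> simp [sg]
lemma abs_sg (b : Bool) : |sg b| = 1 := by cases b <;> simp [sg]

omit [Fintype ι] [DecidableEq ι] in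
@[simp] lemma chi_empty (x : ι → Bool) : chi ∅ x = 1 := by simp [chi]

omit [Fintype ι] [DecidableEq ι] in
lemma abs_chi (S : Finset ι) (x : ι → Bool) : |chi S x| = 1 := by
  simp [chi, abs_prod, abs_sg]

omit [Fintype ι] [DecidableEq ι] in
lemma norm_chi (S : Finset ι) (x : ι → Bool) : ‖(chi S x : ℂ)‖ = 1 := by
  rw [Complex.norm_real, Real.norm_eq_abs, abs_chi]

omit [Fintype ι] [DecidableEq ι] in
lemma chi_xor (S : Finset ι) (x η : ι → Bool) :
    chi S (fun v => xor (x v) (η v)) = chi S x * chi S η := by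
  simp [chi, sg_xor, prod_mul_distrib]

lemma chi_eq (S : Finset ι) (x : ι → Bool) :
    chi S x = ∏ v, if v ∈ S then sg (x v) else 1 := by
  rw [chi, prod_ite_mem, univ_inter]

lemma chi_mul (S T : Finset ι) (x : ι → Bool) : chi S x * chi T x = chi (symmDiff S T) x := by
  rw [chi_eq, chi_eq, chi_eq, ← prod_mul_distrib]
  refine prod_congr rfl fun v _ => ?_
  by_cases h1 : v ∈ S <;> by_cases h2 : v ∈ T <;> simp [mem_symmDiff, h1, h2, sg_mul_self]

lemma sum_prod_cube {R : Type} [CommSemiring R] (g : ι → Bool → R) :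
    ∑ x : ι → Bool, ∏ v, g v (x v) = ∏ v, (g v true + g v false) := by
  rw [← Fintype.piFinset_univ, ← prod_univ_sum]
  simp

lemma sum_chi {S : Finset ι} (hS : S.Nonempty) : ∑ x : ι → Bool, chi S x = 0 := by
  obtain ⟨v, hv⟩ := hS
  simp only [chi_eq]
  rw [sum_prod_cube fun v b => if v ∈ S then sg b else 1]
  exact prod_eq_zero (mem_univ v) (by simp [hv, sg])

lemma unif_pos (x : ι → Bool) : 0 < unif x := by unfold unif; positivity

lemma biased_unif (d : ℕ) : Biased (unif (ι := ι)) d 0 where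
  nonneg x := (unif_pos x).le
  total := by simp [unif]
  bias S hS _ := by simp only [unif]; rw [← mul_sum, sum_chi hS]; simp

/-- the function with coefficients `c` -/
noncomputable def ev (c : Finset ι → ℂ) (x : ι → Bool) : ℂ := ∑ S, c S * chi S x

lemma sum_subsets {R : Type} [CommSemiring R] (g : ι → R) :
    ∑ S : Finset ι, ∏ v ∈ S, g v = ∏ v, (1 + g v) := by
  rw [prod_one_add, powerset_univ]

lemma sum_chi_chi (t : ι → ℂ) (x y : ι → Bool) :
    ∑ S : Finset ι, (∏ v ∈ S, t v) * chi S y * chi S x =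
      ∏ v, (1 + t v * sg (y v) * sg (x v)) := by
  rw [← sum_subsets]
  refine sum_congr rfl fun S _ => ?_
  simp [chi, prod_mul_distrib]

lemma Biased.mean {p : (ι → Bool) → ℝ} {d : ℕ} {δ : ℝ} (hp : Biased p d δ) (hδ : 0 ≤ δ)
    (c : Finset ι → ℂ) (hc : ∀ S, d < S.card → c S = 0) :
    ‖∑ x, (p x : ℂ) * ev c x - c ∅‖ ≤ δ * ∑ S, ‖c S‖ := by
  have e1 : ∑ x, (p x : ℂ) * ev c x - c ∅ =
      ∑ S, c S * (((∑ x, p x * chi S x : ℝ) : ℂ) - if S = ∅ then 1 else 0) := by
    simp only [ev, mul_sum, mul_sub, sum_sub_distrib, mul_ite, mul_one, mul_zero, sum_ite_eq',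
      mem_univ, if_true]
    rw [sum_comm]
    congr 1
    refine sum_congr rfl fun S _ => ?_
    push_cast
    rw [mul_sum]
    exact sum_congr rfl fun x _ => by ring
  rw [e1, mul_sum]
  refine (norm_sum_le _ _).trans (sum_le_sum fun S _ => ?_)
  rw [norm_mul, mul_comm]
  by_cases h : d < S.card
  · simp [hc S h]
  refine mul_le_mul_of_nonneg_right ?_ (norm_nonneg _)
  split_ifs with h0
  · subst h0; simp [← Complex.ofReal_sum, hp.total, hδ]
  · rw [sub_zero, Complex.norm_real, Real.norm_eq_abs]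
    exact hp.bias S (nonempty_iff_ne_empty.2 h0) (not_lt.1 h)

lemma Biased.sq {p : (ι → Bool) → ℝ} {d k : ℕ} {δ : ℝ} (hp : Biased p d δ) (hδ : 0 ≤ δ)
    (hk : 2 * k ≤ d) (c : Finset ι → ℂ) (hc : ∀ S, k < S.card → c S = 0) :
    |∑ x, p x * ‖ev c x‖ ^ 2 - ∑ S, ‖c S‖ ^ 2| ≤ δ * (∑ S, ‖c S‖) ^ 2 := by
  have e1 : ((∑ x, p x * ‖ev c x‖ ^ 2 - ∑ S, ‖c S‖ ^ 2 : ℝ) : ℂ) =
      ∑ S, ∑ T, c S * (starRingEnd ℂ) (c T) *
        (((∑ x, p x * chi (symmDiff S T) x : ℝ) : ℂ) - if S = T then 1 else 0) := by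
    simp only [mul_sub, sum_sub_distrib, mul_ite, mul_one, mul_zero, sum_ite_eq, mem_univ, if_true]
    push_cast
    simp only [← Complex.mul_conj']
    congr 1
    simp only [ev, map_sum, map_mul, Complex.conj_ofReal, mul_sum, sum_mul, ← chi_mul]
    symm
    rw [sum_comm]
    conv_rhs => rw [sum_comm]
    refine sum_congr rfl fun T _ => ?_
    conv_rhs => rw [sum_comm]
    refine sum_congr rfl fun S _ => sum_congr rfl fun x _ => ?_
    push_cast; ring
  rw [← Real.norm_eq_abs, ← Complex.norm_real, e1, pow_two, sum_mul_sum, mul_sum]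
  refine (norm_sum_le _ _).trans (sum_le_sum fun S _ => ?_)
  rw [mul_sum]
  refine (norm_sum_le _ _).trans (sum_le_sum fun T _ => ?_)
  rw [norm_mul, norm_mul, Complex.norm_conj, mul_comm]
  by_cases h1 : k < S.card
  · simp [hc S h1]
  by_cases h2 : k < T.card
  · simp [hc T h2]
  refine mul_le_mul_of_nonneg_right ?_ (by positivity)
  split_ifs with h0
  · subst h0; simp [← Complex.ofReal_sum, hp.total, hδ]
  · rw [sub_zero, Complex.norm_real, Real.norm_eq_abs]
    refine hp.bias _ (symmDiff_nonempty.2 h0) ?_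
    have := card_le_card (symmDiff_subset_union (s := S) (t := T))
    have := card_union_le S T
    omega

lemma parseval (c : Finset ι → ℂ) : ∑ x, unif x * ‖ev c x‖ ^ 2 = ∑ S, ‖c S‖ ^ 2 := by
  have := (biased_unif (ι := ι) (2 * Fintype.card ι)).sq le_rfl le_rfl c
    fun S h => absurd (card_le_univ S) (not_le.2 h)
  rw [zero_mul, abs_nonpos_iff, sub_eq_zero] at this
  exact this

/-- Fourier coefficients -/
noncomputable def hat (f : (ι → Bool) → ℝ) (S : Finset ι) : ℝ := ∑ x, unif x * (f x * chi S x)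

lemma ev_hat_mul (f : (ι → Bool) → ℝ) (t : ι → ℂ) (x : ι → Bool) :
    ∑ S, (∏ v ∈ S, t v) * (hat f S : ℂ) * chi S x =
      ∑ y, f y * ∏ v, (1 + t v * sg (y v) * sg (x v)) / 2 := by
  simp only [prod_div_distrib, ← sum_chi_chi, hat, unif]
  push_cast
  simp only [mul_sum, sum_mul, sum_div]
  rw [sum_comm]
  refine sum_congr rfl fun y _ => sum_congr rfl fun S _ => ?_
  simp only [prod_const, card_univ, one_div, inv_pow]
  field_simp

lemma ev_hat (f : (ι → Bool) → ℝ) (x : ι → Bool) : ev (fun S => (hat f S : ℂ)) x = f x := by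
  have := ev_hat_mul f (fun _ => 1) x
  simp only [prod_const_one, one_mul] at this
  rw [ev, this, sum_eq_single x]
  · simp [← Complex.ofReal_mul, sg_mul_self]
  · intro y _ hy
    obtain ⟨v, hv⟩ := Function.ne_iff.1 hy
    rw [prod_eq_zero (mem_univ v), mul_zero]
    revert hv
    cases y v <;> cases x v <;> simp [sg]
  · simp

/-- the growth factor per coordinate -/
noncomputable def gr (r : ℝ) (ζ : ℂ) : ℝ := 1 / r + ‖1 - ζ‖ ^ 2 / (1 - r)

/-- the kernel lemma -/
def Kernel : Prop :=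
  ∃ C : ℝ, 1 ≤ C ∧ ∀ w : ℕ, 1 ≤ w → ∃ (D : ℕ) (ψ : ℕ → ℂ),
    (D : ℝ) ≤ C * w * Real.log (w + 1) ^ 2 ∧ ψ 0 = 1 ∧ (∀ k, D < k → ψ k = 0) ∧
    ∀ (J : Type) [Fintype J] (b : J → ℂ) (e : J → ℕ) (lam : ℝ), 0 ≤ lam →
      (∀ (r : ℝ) (ζ : ℂ), 0 < r → r < 1 → ‖ζ‖ = 1 →
        ‖∑ j, b j * (r * ζ) ^ e j‖ ^ 2 ≤ lam ^ 2 * gr r ζ ^ w) →
      ‖∑ j, b j * ψ (e j)‖ ≤ C * lam

/-- every point of `E` lies in a subcube of codimension at most `w` contained in `E` -/
def Width (w : ℕ) (E : Set (ι → Bool)) : Prop :=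
  ∀ x ∈ E, ∃ I : Finset ι, I.card ≤ w ∧ ∀ y : ι → Bool, (∀ v ∈ I, y v = x v) → y ∈ E

open Classical in
/-- the probability of an event -/
noncomputable def pr (p : (ι → Bool) → ℝ) (E : Set (ι → Bool)) : ℝ :=
  ∑ x, if x ∈ E then p x else 0

end Pool.Agent.Lib.MP_ee7726_lc.SB
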