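import Pool.Agent.Lib.MP_ee7726_lc.SB.Basic

/-! The growth bound for the noise operator outside a term. -/

namespace Pool.Agent.Lib.MP_ee7726_lc.SB

open Finset

variable {ι : Type} [Fintype ι] [DecidableEq ι]

lemma cs_div {α : Type} (s : Finset α) (A U ν : α → ℝ) (hν : ∀ i, 0 < ν i) :
    (∑ i ∈ s, A i * U i) ^ 2 ≤ (∑ i ∈ s, A i ^ 2 / ν i) * ∑ i ∈ s, ν i * U i ^ 2 := by
  have := sum_mul_sq_le_sq_mul_sq s (fun i => A i / √(ν i)) fun i => √(ν i) * U i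
  have e : ∀ i, A i / √(ν i) * (√(ν i) * U i) = A i * U i := fun i => by
    have := Real.sqrt_pos.2 (hν i); field_simp
  simpa only [e, div_pow, mul_pow, Real.sq_sqrt (hν _).le] using this

lemma cs_mul {α : Type} (s : Finset α) (U ν : α → ℝ) (hν : ∀ i, 0 ≤ ν i) :
    (∑ i ∈ s, ν i * U i) ^ 2 ≤ (∑ i ∈ s, ν i) * ∑ i ∈ s, ν i * U i ^ 2 := by
  have := sum_mul_sq_le_sq_mul_sq s (fun i => √(ν i)) fun i => √(ν i) * U i
  simpa only [← mul_assoc, Real.mul_self_sqrt (hν _), mul_pow, Real.sq_sqrt (hν _)] using this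

lemma one_le_gr {r : ℝ} (ζ : ℂ) (h0 : 0 < r) (h1 : r < 1) : 1 ≤ gr r ζ := by
  have : 1 ≤ 1 / r := one_le_one_div h0 h1.le
  have : 0 ≤ ‖1 - ζ‖ ^ 2 / (1 - r) := div_nonneg (by positivity) (by linarith)
  unfold gr; linarith

omit [Fintype ι] in
lemma prod_off (I S : Finset ι) (z : ℂ) :
    ∏ v ∈ S, (if v ∈ I then 1 else z) = z ^ (S \ I).card := by
  rw [prod_ite, prod_const_one, one_mul, prod_const, sdiff_eq_filter]

lemma prod_eq_kernel (t : ι → ℂ) (S : Finset ι) :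
    ∏ v ∈ S, t v = ∑ η : ι → Bool, (∏ v, (1 + t v * sg (η v)) / 2) * chi S η := by
  simp only [chi_eq]
  push_cast
  simp only [← prod_mul_distrib]
  rw [sum_prod_cube fun v b => (1 + t v * sg b) / 2 * ((if v ∈ S then sg b else 1 : ℝ) : ℂ),
    ← univ_inter S, ← prod_ite_mem]
  refine prod_congr rfl fun v _ => ?_
  by_cases h : v ∈ S <;> simp [h, sg] <;> ring

/-- the law of the noise -/
noncomputable def nu (r : ℝ) (η : ι → Bool) : ℝ := ∏ v, (1 + r * sg (η v)) / 2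

lemma nu1_pos {r : ℝ} (h0 : 0 < r) (h1 : r < 1) (b : Bool) : 0 < (1 + r * sg b) / 2 := by
  cases b <;> simp [sg] <;> linarith

lemma sum_nu (r : ℝ) : ∑ η : ι → Bool, nu r η = 1 := by
  unfold nu
  rw [sum_prod_cube fun _ b => (1 + r * sg b) / 2]
  exact prod_eq_one fun v _ => by simp [sg]; ring

lemma growth_pt {w : ℕ} (c : Finset ι → ℂ) {I : Finset ι} (hI : I.card ≤ w) {r : ℝ} {ζ : ℂ}
    (h0 : 0 < r) (h1 : r < 1) (hζ : ‖ζ‖ = 1) (x : ι → Bool) :
    ‖∑ S, c S * chi S x * (r * ζ) ^ (S \ I).card‖ ^ 2 ≤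
      gr r ζ ^ w * ∑ η, nu r η * ‖ev (fun S => c S * ζ ^ S.card * chi S η) x‖ ^ 2 := by
  have hζ0 : ζ ≠ 0 := fun h => by simp [h] at hζ
  let t : ι → ℂ := fun v => if v ∈ I then ζ⁻¹ else r
  have e1 : ∑ S, c S * chi S x * (r * ζ) ^ (S \ I).card = ∑ η : ι → Bool,
      (∏ v, (1 + t v * sg (η v)) / 2) * ev (fun S => c S * ζ ^ S.card * chi S η) x := by
    simp only [ev, mul_sum]
    rw [sum_comm]
    refine sum_congr rfl fun S _ => ?_
    have : (r * ζ) ^ (S \ I).card = ζ ^ S.card * ∏ v ∈ S, t v := by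
      rw [← prod_off, ← prod_const, ← prod_mul_distrib]
      refine prod_congr rfl fun v _ => ?_
      simp only [t]
      split_ifs
      · rw [mul_inv_cancel₀ hζ0]
      · ring
    rw [this, prod_eq_kernel, mul_sum, mul_sum]
    exact sum_congr rfl fun η _ => by ring
  have hν : ∀ η : ι → Bool, 0 < nu r η := fun η => prod_pos fun v _ => nu1_pos h0 h1 _
  have e2 : ∑ η : ι → Bool, ‖∏ v, (1 + t v * sg (η v)) / 2‖ ^ 2 / nu r η ≤ gr r ζ ^ w := by
    simp only [norm_prod, ← prod_pow, nu, ← prod_div_distrib]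
    rw [sum_prod_cube fun v b => ‖(1 + t v * sg b) / 2‖ ^ 2 / ((1 + r * sg b) / 2)]
    refine le_trans (prod_le_prod (g := fun v => if v ∈ I then gr r ζ else 1) (fun v _ => ?_)
      fun v _ => ?_) ?_
    · exact add_nonneg (div_nonneg (by positivity) (nu1_pos h0 h1 _).le)
        (div_nonneg (by positivity) (nu1_pos h0 h1 _).le)
    · have hr : 0 < 1 - r := by linarith
      simp only [t]
      split_ifs
      · have a1 : ‖(1 + ζ⁻¹ * sg true) / 2‖ = ‖1 - ζ‖ / 2 := by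
          rw [show (1 + ζ⁻¹ * sg true) / 2 = -ζ⁻¹ * (1 - ζ) / 2 by simp [sg]; field_simp; ring]
          simp [hζ]
        have a2 : ‖(1 + ζ⁻¹ * sg false) / 2‖ ≤ 1 := by
          have := norm_add_le 1 ζ⁻¹
          simp only [norm_one, norm_inv, hζ] at this
          simp only [sg, Bool.false_eq_true, if_false, Complex.ofReal_one, mul_one, norm_div,
            Complex.norm_ofNat]
          linarith
        have a3 : ‖(1 + ζ⁻¹ * sg false) / 2‖ ^ 2 / ((1 + r * sg false) / 2) ≤ 1 / r := by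
          refine div_le_div₀ zero_le_one (pow_le_one₀ (norm_nonneg _) a2) h0 ?_
          simp [sg]; linarith
        have a4 : ‖(1 + ζ⁻¹ * sg true) / 2‖ ^ 2 / ((1 + r * sg true) / 2) ≤
            ‖1 - ζ‖ ^ 2 / (1 - r) := by
          rw [a1, show (1 + r * sg true) / 2 = (1 - r) / 2 by simp [sg]; ring,
            div_le_div_iff₀ (by positivity) hr]
          nlinarith [mul_nonneg (sq_nonneg ‖1 - ζ‖) hr.le]
        unfold gr; linarith
      · have a1 : ∀ b, ‖(1 + (r : ℂ) * sg b) / 2‖ ^ 2 / ((1 + r * sg b) / 2) =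
            (1 + r * sg b) / 2 := fun b => by
          have hb := nu1_pos h0 h1 b
          rw [show (1 + (r : ℂ) * sg b) / 2 = ((1 + r * sg b) / 2 : ℝ) by push_cast; rfl,
            Complex.norm_real, Real.norm_of_nonneg hb.le, pow_two, mul_div_assoc, div_self hb.ne',
            mul_one]
        rw [a1, a1]; simp [sg]; linarith
    · rw [prod_ite_mem, univ_inter, prod_const]
      exact pow_le_pow_right₀ (one_le_gr ζ h0 h1) hI
  rw [e1]
  refine le_trans (pow_le_pow_left₀ (norm_nonneg _) (norm_sum_le _ _) 2) ?_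
  simp only [norm_mul]
  refine (cs_div _ _ _ _ hν).trans (mul_le_mul_of_nonneg_right e2 ?_)
  exact sum_nonneg fun η _ => mul_nonneg (hν η).le (by positivity)

/-- the last clause of the kernel lemma -/
def KP (w : ℕ) (C : ℝ) (ψ : ℕ → ℂ) : Prop :=
  ∀ (J : Type) [Fintype J] (b : J → ℂ) (e : J → ℕ) (lam : ℝ), 0 ≤ lam →
    (∀ (r : ℝ) (ζ : ℂ), 0 < r → r < 1 → ‖ζ‖ = 1 →
      ‖∑ j, b j * (r * ζ) ^ e j‖ ^ 2 ≤ lam ^ 2 * gr r ζ ^ w) →
    ‖∑ j, b j * ψ (e j)‖ ≤ C * lam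

variable {w : ℕ} {C : ℝ} {ψ : ℕ → ℂ}

lemma KP.ident (h : KP w C ψ) {J : Type} [Fintype J] (b : J → ℂ) (e : J → ℕ) (b₀ : ℂ)
    (hb : ∀ z : ℂ, ∑ j, b j * z ^ e j = b₀) : ∑ j, b j * ψ (e j) = b₀ * ψ 0 := by
  have := h (Option J) (fun o => o.elim (-b₀) b) (fun o => o.elim 0 e) 0 le_rfl
    fun r ζ _ _ _ => by simp [Fintype.sum_option, hb]
  simp only [Fintype.sum_option, Option.elim, mul_zero, norm_le_zero_iff] at this
  linear_combination this

lemma KP.norm_le (h : KP w C ψ) (k : ℕ) : ‖ψ k‖ ≤ C := by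
  have := h Unit (fun _ => 1) (fun _ => k) 1 zero_le_one fun r ζ h0 h1 hζ => by
    have h2 : 1 ≤ gr r ζ ^ w := one_le_pow₀ (one_le_gr ζ h0 h1)
    have h3 : (r ^ k) ^ 2 ≤ 1 := pow_le_one₀ (by positivity) (pow_le_one₀ h0.le h1.le)
    simp [hζ, abs_of_pos h0]
    linarith
  simpa using this

lemma KP.key (h : KP w C ψ) {κ : Type} [Fintype κ] {I : κ → Finset ι} (hI : ∀ i, (I i).card ≤ w)
    {p : (ι → Bool) → ℝ} {K : ℕ} {δ : ℝ} (hp : Biased p (2 * K) δ) (hδ : 0 ≤ δ)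
    (μ : κ → (ι → Bool) → ℝ) (hμ : ∀ i x, 0 ≤ μ i x) (hμp : ∀ x, ∑ i, μ i x ≤ p x)
    (c : Finset ι → ℂ) (hc : ∀ S, K < S.card → c S = 0) :
    ‖∑ i, ∑ x, (μ i x : ℂ) * ∑ S, c S * chi S x * ψ (S \ I i).card‖ ≤
      C * √((∑ i, ∑ x, μ i x) * (∑ S, ‖c S‖ ^ 2 + δ * (∑ S, ‖c S‖) ^ 2)) := by
  have hm : 0 ≤ ∑ i, ∑ x, μ i x := sum_nonneg fun i _ => sum_nonneg fun x _ => hμ i x
  have := h (κ × (ι → Bool) × Finset ι) (fun j => μ j.1 j.2.1 * (c j.2.2 * chi j.2.2 j.2.1))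
    (fun j => (j.2.2 \ I j.1).card) _ (Real.sqrt_nonneg ((∑ i, ∑ x, μ i x) *
      (∑ S, ‖c S‖ ^ 2 + δ * (∑ S, ‖c S‖) ^ 2))) fun r ζ h0 h1 hζ => ?_
  · simpa only [Fintype.sum_prod_type, mul_sum, mul_assoc] using this
  rw [Real.sq_sqrt (by positivity)]
  have hν : ∀ η : ι → Bool, 0 < nu r η := fun η => prod_pos fun v _ => nu1_pos h0 h1 _
  have hg : 0 ≤ gr r ζ ^ w := pow_nonneg (zero_le_one.trans (one_le_gr ζ h0 h1)) _
  let Q : (ι → Bool) → ℝ := fun x =>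
    ∑ η, nu r η * ‖ev (fun S => c S * ζ ^ S.card * chi S η) x‖ ^ 2
  have hQ0 : ∀ x, 0 ≤ Q x := fun x => sum_nonneg fun η _ => mul_nonneg (hν η).le (by positivity)
  have hQ : ∑ x, p x * Q x ≤ ∑ S, ‖c S‖ ^ 2 + δ * (∑ S, ‖c S‖) ^ 2 := by
    simp only [Q, mul_sum]
    rw [sum_comm, ← one_mul (_ + _ : ℝ), ← sum_nu (ι := ι) r, sum_mul]
    refine sum_le_sum fun η _ => ?_
    have h2 := (abs_le.1 (hp.sq hδ le_rfl (fun S => c S * ζ ^ S.card * chi S η)
      fun S hS => by simp [hc S hS])).2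
    simp only [norm_mul, norm_pow, hζ, one_pow, mul_one, norm_chi] at h2
    simp only [mul_left_comm _ (nu r η), ← mul_sum]
    exact mul_le_mul_of_nonneg_left (by linarith) (hν η).le
  calc _ = ‖∑ j : κ × (ι → Bool), (μ j.1 j.2 : ℂ) *
        ∑ S, c S * chi S j.2 * (r * ζ) ^ (S \ I j.1).card‖ ^ 2 := by
        simp only [Fintype.sum_prod_type, mul_sum, mul_assoc]
    _ ≤ (∑ j : κ × (ι → Bool), μ j.1 j.2 *
        ‖∑ S, c S * chi S j.2 * (r * ζ) ^ (S \ I j.1).card‖) ^ 2 := by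
        refine pow_le_pow_left₀ (norm_nonneg _) ((norm_sum_le _ _).trans (le_of_eq ?_)) 2
        exact sum_congr rfl fun j _ => by
          rw [norm_mul, Complex.norm_real, Real.norm_of_nonneg (hμ _ _)]
    _ ≤ (∑ j : κ × (ι → Bool), μ j.1 j.2) * ∑ j : κ × (ι → Bool), μ j.1 j.2 *
        (gr r ζ ^ w * Q j.2) := by
        refine (cs_mul _ _ _ fun j => hμ _ _).trans (mul_le_mul_of_nonneg_left
          (sum_le_sum fun j _ => mul_le_mul_of_nonneg_left
            (growth_pt c (hI _) h0 h1 hζ _) (hμ _ _)) (sum_nonneg fun j _ => hμ _ _))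
    _ ≤ _ := by
        rw [Fintype.sum_prod_type, mul_assoc]
        refine mul_le_mul_of_nonneg_left ?_ hm
        rw [Fintype.sum_prod_type_right, mul_comm]
        refine le_trans ?_ (mul_le_mul_of_nonneg_left hQ hg)
        rw [mul_sum]
        refine sum_le_sum fun x _ => ?_
        simp only [← sum_mul]
        rw [mul_left_comm]
        exact mul_le_mul_of_nonneg_left (mul_le_mul_of_nonneg_right (hμp x) (hQ0 x)) hg

end Pool.Agent.Lib.MP_ee7726_lc.SB
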