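import Pool.Agent.Lib.MP_ee7726_lc.SB.LK
import Pool.Agent.Lib.MP_ee7726_lc.SB.Growth

/-! Laws of small bias fool DNFs of width `w` up to a constant factor. -/

namespace Pool.Agent.Lib.MP_ee7726_lc.SB

open Finset

variable {ι : Type} [Fintype ι] [DecidableEq ι] {κ : Type} [Fintype κ] [LinearOrder κ]
  {I : κ → Finset ι} {a : κ → ι → Bool} {w D : ℕ} {C : ℝ} {ψ : ℕ → ℂ}

lemma l1_le (hw : ∀ i, (I i).card ≤ w) (h1 : 1 ≤ w) (K : ℕ) :
    ∑ S : Finset ι, (if S.card ≤ K then ∑ i, |hat (fst I a i) S| else 0) ≤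
      (K + 1) * (4 * w : ℝ) ^ K := by
  have hw1 : (1 : ℝ) ≤ 4 * w := by
    have : (1 : ℝ) ≤ w := by exact_mod_cast h1
    linarith
  calc _ = ∑ k ∈ range (K + 1), ∑ S ∈ powersetCard k univ, ∑ i, |hat (fst I a i) S| := by
        simp only [powersetCard_eq_filter, powerset_univ, sum_filter]
        rw [sum_comm]
        refine sum_congr rfl fun S _ => ?_
        rw [sum_ite_eq]
        simp only [mem_range, Nat.lt_succ_iff]
    _ ≤ ∑ _k ∈ range (K + 1), (4 * w : ℝ) ^ K := sum_le_sum fun k hk =>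
        (level_le hw k).trans (pow_le_pow_right₀ hw1 (Nat.lt_succ_iff.1 (mem_range.1 hk)))
    _ = _ := by simp

omit [Fintype ι] in
lemma card_sdiff_gt (hw : ∀ i, (I i).card ≤ w) {S : Finset ι} (h : D + w < S.card) (i : κ) :
    D < (S \ I i).card := by
  have := le_card_sdiff (I i) S
  have := hw i
  omega

open Classical in
lemma sum_fst_eq {E : Set (ι → Bool)} (hE : ∀ x, x ∈ E ↔ ∃ i, Unf I a ∅ i x) (x : ι → Bool) :
    ∑ i, fst I a i x = if x ∈ E then 1 else 0 := by
  split_ifs with h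
  · obtain ⟨i, hi⟩ := (hE x).1 h
    obtain ⟨j, hj⟩ := exists_Fu hi
    rw [sum_eq_single j (fun l _ hl => by rw [fst, if_neg fun h => hl (h.unique hj)]) (by simp),
      fst, if_pos hj]
  · exact sum_eq_zero fun i _ => by rw [fst, if_neg fun hi => h ((hE x).2 ⟨i, hi.1⟩)]

lemma sum_mu {E : Set (ι → Bool)} (hE : ∀ x, x ∈ E ↔ ∃ i, Unf I a ∅ i x) (p : (ι → Bool) → ℝ) :
    ∑ i, ∑ x, p x * fst I a i x = pr p E := by
  rw [sum_comm, pr]
  refine sum_congr rfl fun x _ => ?_
  rw [← mul_sum, sum_fst_eq hE]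
  split_ifs <;> simp

lemma le_of_le_sqrt {m B : ℝ} (hm : 0 ≤ m) (hB : 0 ≤ B) (h : m ≤ C * √(m * B)) :
    m ≤ C ^ 2 * B := by
  rcases hm.eq_or_lt with h0 | h0
  · rw [← h0]; positivity
  have h1 := pow_le_pow_left₀ hm h 2
  rw [mul_pow, Real.sq_sqrt (by positivity)] at h1
  nlinarith

lemma upper (hK : KP w C ψ) (h0 : ψ 0 = 1) (hD : ∀ k, D < k → ψ k = 0)
    (hw : ∀ i, (I i).card ≤ w) (h1 : 1 ≤ w) {E : Set (ι → Bool)}
    (hE : ∀ x, x ∈ E ↔ ∃ i, Unf I a ∅ i x) {p : (ι → Bool) → ℝ} {δ : ℝ}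
    (hp : Biased p (2 * (D + w)) δ) (hδ : 0 ≤ δ) :
    pr p E ≤ C ^ 2 * (pr unif E + δ * (((D + w : ℕ) + 1) * (4 * w : ℝ) ^ (D + w)) ^ 2) := by
  classical
  let f : (ι → Bool) → ℝ := fun x => if x ∈ E then 1 else 0
  let c : Finset ι → ℂ := fun S => if S.card ≤ D + w then hat f S else 0
  have key := hK.key hw hp hδ (fun i x => p x * fst I a i x)
    (fun i x => mul_nonneg (hp.nonneg x) (fst_nonneg i x))
    (fun x => by rw [← mul_sum]; exact mul_le_of_le_one_right (hp.nonneg x) (sum_fst_le x)) c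
    fun S hS => if_neg (not_le.2 hS)
  have e1 : ∀ i x, Fu I a ∅ i x → ∑ S, c S * chi S x * ψ (S \ I i).card = 1 := by
    intro i x hx
    have e2 := hK.ident (fun S : Finset ι => (hat f S : ℂ) * chi S x) (fun S => (S \ I i).card) 1
      fun z => by
        have e3 := ev_hat_mul f (fun v => if v ∈ I i then 1 else z) x
        simp only [prod_off] at e3
        rw [sum_congr rfl fun S _ => show (hat f S : ℂ) * chi S x * z ^ (S \ I i).card =
          z ^ (S \ I i).card * hat f S * chi S x by ring, e3]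
        rw [sum_congr rfl fun y _ => show (f y : ℂ) * _ = ∏ v, (1 + (if v ∈ I i then 1 else z) *
          sg (y v) * sg (x v)) / 2 from ?_,
          sum_prod_cube fun v b => (1 + (if v ∈ I i then 1 else z) * sg b * sg (x v)) / 2]
        · exact prod_eq_one fun v _ => by simp [sg]; ring
        · by_cases hy : y ∈ E
          · simp [f, hy]
          · have : ¬ Unf I a ∅ i y := fun h => hy ((hE y).2 ⟨i, h⟩)
            simp only [Unf, not_forall] at this
            obtain ⟨v, hv, hv', hne⟩ := this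
            rw [← hx.1 v hv hv'] at hne
            rw [prod_eq_zero (mem_univ v), mul_zero]
            rw [if_pos hv]
            revert hne
            cases y v <;> cases x v <;> simp [sg]
    rw [h0, one_mul] at e2
    rw [← e2]
    refine sum_congr rfl fun S _ => ?_
    simp only [c]
    split_ifs with h
    · rfl
    · rw [hD _ (card_sdiff_gt hw (not_le.1 h) i), mul_zero, mul_zero]
  have e4 : ∑ i, ∑ x, ((p x * fst I a i x : ℝ) : ℂ) * ∑ S, c S * chi S x * ψ (S \ I i).card =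
      (pr p E : ℝ) := by
    rw [← sum_mu hE p, Complex.ofReal_sum]
    refine sum_congr rfl fun i _ => ?_
    rw [Complex.ofReal_sum]
    refine sum_congr rfl fun x _ => ?_
    by_cases hx : Fu I a ∅ i x
    · rw [e1 i x hx, mul_one]
    · simp [fst, hx]
  have hm : 0 ≤ pr p E := sum_nonneg fun x _ => by
    split_ifs
    · exact hp.nonneg x
    · exact le_rfl
  rw [e4, sum_mu hE p, Complex.norm_real, Real.norm_of_nonneg hm] at key
  refine (le_of_le_sqrt hm (by positivity) key).trans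
    (mul_le_mul_of_nonneg_left (add_le_add ?_ (mul_le_mul_of_nonneg_left
      (pow_le_pow_left₀ (by positivity) ?_ 2) hδ)) (by positivity))
  · calc ∑ S, ‖c S‖ ^ 2 ≤ ∑ S, ‖(hat f S : ℂ)‖ ^ 2 := sum_le_sum fun S _ => by
          simp only [c]; split_ifs <;> simp [sq_nonneg]
      _ = pr unif E := by
          rw [← parseval, pr]
          refine sum_congr rfl fun x _ => ?_
          rw [ev_hat]; simp only [f]; split_ifs <;> simp
  · refine le_trans (sum_le_sum fun S _ => ?_) (l1_le (a := a) hw h1 (D + w))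
    simp only [c]
    split_ifs
    · rw [Complex.norm_real, Real.norm_eq_abs]
      refine le_trans (le_of_eq ?_) (abs_sum_le_sum_abs _ _)
      simp only [hat]
      rw [sum_comm]
      simp only [← mul_sum, ← sum_mul, sum_fst_eq hE, f]
    · simp

lemma lower (hC : 1 ≤ C) (hK : KP w C ψ) (h0 : ψ 0 = 1) (hD : ∀ k, D < k → ψ k = 0)
    (hw : ∀ i, (I i).card ≤ w) (h1 : 1 ≤ w) {E : Set (ι → Bool)}
    (hE : ∀ x, x ∈ E ↔ ∃ i, Unf I a ∅ i x) {p : (ι → Bool) → ℝ} {δ : ℝ}
    (hp : Biased p (2 * (D + w)) δ) (hδ : 0 ≤ δ)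
    (hs : δ * (C * (((D + w : ℕ) + 1) * (4 * w : ℝ) ^ (D + w))) ^ 2 ≤ pr unif E / 2) :
    pr unif E ≤ 4 * (C ^ 2 + 1) * pr p E := by
  classical
  obtain ⟨A, hA⟩ : ∃ A, A = C * (((D + w : ℕ) + 1) * (4 * w : ℝ) ^ (D + w)) := ⟨_, rfl⟩
  rw [← hA] at hs
  have hA1 : 1 ≤ A := by
    have : (1 : ℝ) ≤ w := by exact_mod_cast h1
    rw [hA]
    refine one_le_mul_of_one_le_of_one_le hC (one_le_mul_of_one_le_of_one_le
      (le_add_of_nonneg_left (by positivity)) (one_le_pow₀ (by linarith)))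
  let c : Finset ι → ℂ := fun S => ∑ i, ψ (S \ I i).card * hat (fst I a i) S
  have hc : ∀ S, D + w < S.card → c S = 0 := fun S hS =>
    sum_eq_zero fun i _ => by rw [hD _ (card_sdiff_gt hw hS i), zero_mul]
  have hP : 0 ≤ pr unif E := sum_nonneg fun x _ => by
    split_ifs
    · exact (unif_pos x).le
    · exact le_rfl
  have hm : 0 ≤ pr p E := sum_nonneg fun x _ => by
    split_ifs
    · exact hp.nonneg x
    · exact le_rfl
  have ex : ∀ g : Finset ι → ℂ, ∑ S, g S * c S = ∑ i, ∑ x, ((unif x * fst I a i x : ℝ) : ℂ) *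
      ∑ S, g S * chi S x * ψ (S \ I i).card := fun g => by
    simp only [c, hat, mul_sum, Complex.ofReal_sum]
    rw [sum_comm]
    refine sum_congr rfl fun i _ => ?_
    rw [sum_comm]
    refine sum_congr rfl fun x _ => sum_congr rfl fun S _ => ?_
    push_cast; ring
  have c0 : c ∅ = (pr unif E : ℝ) := by
    rw [← sum_mu hE unif]
    simp [c, h0, hat]
  have c1 : ∑ S, ‖c S‖ ≤ A := by
    rw [hA]
    refine le_trans ?_ (mul_le_mul_of_nonneg_left (l1_le (a := a) hw h1 (D + w)) (by linarith))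
    rw [mul_sum]
    refine sum_le_sum fun S _ => ?_
    split_ifs with h
    · rw [mul_sum]
      refine (norm_sum_le _ _).trans (sum_le_sum fun i _ => ?_)
      rw [norm_mul, Complex.norm_real, Real.norm_eq_abs]
      exact mul_le_mul_of_nonneg_right (hK.norm_le _) (abs_nonneg _)
    · simp [hc S (not_le.1 h)]
  have c2 : ∑ S, ‖c S‖ ^ 2 ≤ C ^ 2 * pr unif E := by
    have key := hK.key hw (biased_unif (2 * (D + w))) le_rfl (fun i x => unif x * fst I a i x)
      (fun i x => mul_nonneg (unif_pos x).le (fst_nonneg i x))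
      (fun x => by rw [← mul_sum]; exact mul_le_of_le_one_right (unif_pos x).le (sum_fst_le x))
      (fun S => (starRingEnd ℂ) (c S)) fun S hS => by rw [hc S hS, map_zero]
    rw [← ex, sum_mu hE unif] at key
    simp only [Complex.conj_mul', Complex.norm_conj, zero_mul, add_zero, ← Complex.ofReal_pow,
      ← Complex.ofReal_sum, Complex.norm_real] at key
    rw [Real.norm_of_nonneg (by positivity), mul_comm (pr unif E)] at key
    exact le_of_le_sqrt (by positivity) hP key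
  have c3 : ∀ y, y ∉ E → ev c y = 0 := fun y hy => by
    rw [ev, sum_congr rfl fun S _ => mul_comm _ _, ex]
    refine sum_eq_zero fun i _ => sum_eq_zero fun x _ => ?_
    by_cases hx : Fu I a ∅ i x
    · rw [hK.ident (fun S : Finset ι => (chi S y : ℂ) * chi S x) (fun S => (S \ I i).card) 0
        fun z => ?_, zero_mul, mul_zero]
      have e3 := sum_chi_chi (fun v => if v ∈ I i then 1 else z) x y
      simp only [prod_off] at e3
      rw [sum_congr rfl fun S _ => show (chi S y : ℂ) * chi S x * z ^ (S \ I i).card =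
          z ^ (S \ I i).card * chi S y * chi S x by ring, e3]
      have : ¬ Unf I a ∅ i y := fun h => hy ((hE y).2 ⟨i, h⟩)
      simp only [Unf, not_forall] at this
      obtain ⟨v, hv, hv', hne⟩ := this
      rw [← hx.1 v hv hv'] at hne
      refine prod_eq_zero (mem_univ v) ?_
      rw [if_pos hv]
      revert hne
      cases y v <;> cases x v <;> simp [sg]
    · simp [fst, hx]
  have hS0 : 0 ≤ ∑ S, ‖c S‖ := by positivity
  have d1 := hp.mean hδ c fun S hS => hc S (by omega)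
  have d2 := (abs_le.1 (hp.sq hδ le_rfl c hc)).2
  have d3 : δ * (∑ S, ‖c S‖) ^ 2 ≤ pr unif E / 2 :=
    (mul_le_mul_of_nonneg_left (pow_le_pow_left₀ hS0 c1 2) hδ).trans hs
  have d4 : δ * ∑ S, ‖c S‖ ≤ pr unif E / 2 :=
    (mul_le_mul_of_nonneg_left (c1.trans (by nlinarith)) hδ).trans hs
  have d5 : pr unif E / 2 ≤ ∑ x, (if x ∈ E then p x else 0) * ‖ev c x‖ := by
    have h2 := norm_sub_norm_le (c ∅) (∑ x, (p x : ℂ) * ev c x)
    rw [norm_sub_rev, c0, Complex.norm_real, Real.norm_of_nonneg hP] at h2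
    rw [c0] at d1
    have h3 : ‖∑ x, (p x : ℂ) * ev c x‖ ≤ ∑ x, (if x ∈ E then p x else 0) * ‖ev c x‖ := by
      refine (norm_sum_le _ _).trans (sum_le_sum fun x _ => ?_)
      split_ifs with h
      · rw [norm_mul, Complex.norm_real, Real.norm_of_nonneg (hp.nonneg x)]
      · simp [c3 x h]
    linarith
  have d6 := cs_mul univ (fun x => ‖ev c x‖) (fun x => if x ∈ E then p x else 0) fun x => by
    split_ifs
    · exact hp.nonneg x
    · exact le_rfl
  have d7 : ∑ x, (if x ∈ E then p x else 0) * ‖ev c x‖ ^ 2 ≤ (C ^ 2 + 1) * pr unif E := by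
    have : ∑ x, (if x ∈ E then p x else 0) * ‖ev c x‖ ^ 2 ≤ ∑ x, p x * ‖ev c x‖ ^ 2 :=
      sum_le_sum fun x _ => by
        split_ifs
        · exact le_rfl
        · rw [zero_mul]; exact mul_nonneg (hp.nonneg x) (by positivity)
    linarith
  have d8 : (pr unif E / 2) ^ 2 ≤ pr p E * ((C ^ 2 + 1) * pr unif E) :=
    ((pow_le_pow_left₀ (by positivity) d5 2).trans d6).trans (mul_le_mul_of_nonneg_left d7 hm)
  rcases hP.eq_or_lt with h | h
  · rw [← h]; positivity
  · nlinarith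

lemma Width.pr_ge {E : Set (ι → Bool)} (hE : Width w E) {x : ι → Bool} (hx : x ∈ E) :
    (1 / 2 : ℝ) ^ w ≤ pr unif E := by
  classical
  obtain ⟨J, hJ, h⟩ := hE x hx
  calc (1 / 2 : ℝ) ^ w ≤ (1 / 2) ^ J.card := pow_le_pow_of_le_one (by norm_num) (by norm_num) hJ
    _ = ∑ y : ι → Bool, ∏ v, (if v ∈ J ∧ y v ≠ x v then 0 else 1 / 2 : ℝ) := by
        rw [sum_prod_cube fun v b => (if v ∈ J ∧ b ≠ x v then 0 else 1 / 2 : ℝ), ← prod_const,
          ← univ_inter J, ← prod_ite_mem]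
        refine prod_congr rfl fun v _ => ?_
        by_cases hv : v ∈ J <;> cases x v <;> simp [hv]
        all_goals norm_num
    _ ≤ pr unif E := sum_le_sum fun y _ => by
        split_ifs with hy
        · rw [unif, ← card_univ, ← prod_const]
          exact prod_le_prod (fun v _ => by split_ifs <;> norm_num)
            fun v _ => by split_ifs <;> norm_num
        · have : ¬ ∀ v ∈ J, y v = x v := fun h' => hy (h y h')
          push Not at this
          obtain ⟨v, hv⟩ := this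
          exact le_of_eq (prod_eq_zero (mem_univ v) (by rw [if_pos hv]))

theorem core (h : Kernel) : ∃ C : ℝ, 1 ≤ C ∧ ∀ w : ℕ, 1 ≤ w → ∃ K : ℕ,
    (K : ℝ) ≤ C * w * Real.log (w + 1) ^ 2 ∧ w ≤ K ∧
    ∀ (ι : Type) [Fintype ι] [DecidableEq ι] (E : Set (ι → Bool)) (p : (ι → Bool) → ℝ) (δ : ℝ),
      Width w E → Biased p (2 * K) δ → 0 ≤ δ →
      δ * (C * (K + 1) * (4 * w) ^ K) ^ 2 * 2 ^ (w + 1) ≤ 1 →
      pr p E ≤ C * pr unif E ∧ pr unif E ≤ C * pr p E := by
  obtain ⟨C, hC, h⟩ := h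
  refine ⟨4 * (C ^ 2 + 1), by nlinarith, fun w hw => ?_⟩
  obtain ⟨D, ψ, hD, h0, hψ, hK⟩ := h w hw
  have hw1 : (1 : ℝ) ≤ w := by exact_mod_cast hw
  refine ⟨D + w, ?_, by omega, fun ι _ _ E p δ hE hp hδ hs => ?_⟩
  · have h1 : Real.log 2 ≤ Real.log (w + 1) := Real.log_le_log (by norm_num) (by linarith)
    have h2 := Real.log_two_gt_d9
    have h3 : 1 ≤ 3 * Real.log (w + 1) ^ 2 := by nlinarith
    have h4 : 0 ≤ w * Real.log (w + 1) ^ 2 := by positivity
    push_cast
    nlinarith [mul_le_mul_of_nonneg_left h3 (by linarith : (0 : ℝ) ≤ w),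
      mul_nonneg (show 0 ≤ 4 * (C ^ 2 + 1) - C - 3 by nlinarith) h4]
  classical
  rcases E.eq_empty_or_nonempty with rfl | ⟨x₀, hx₀⟩
  · simp [pr]
  have hP := hE.pr_ge hx₀
  choose J hJ hJE using fun x : E => hE x.1 x.2
  letI : Fintype E := Fintype.ofFinite _
  letI : LinearOrder E := LinearOrder.lift' (Fintype.equivFin E) (Fintype.equivFin E).injective
  have hEE : ∀ y, y ∈ E ↔ ∃ i : E, Unf J (fun i : E => i.1) ∅ i y := fun y =>
    ⟨fun hy => ⟨⟨y, hy⟩, fun _ _ _ => rfl⟩,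
      fun ⟨i, hi⟩ => hJE i y fun v hv => hi v hv (notMem_empty v)⟩
  obtain ⟨B, hB⟩ : ∃ B, B = (((D + w : ℕ) + 1) * (4 * w : ℝ) ^ (D + w)) := ⟨_, rfl⟩
  have hB0 : 0 ≤ B := by rw [hB]; positivity
  have hs1 : δ * (C * B) ^ 2 ≤ pr unif E / 2 := by
    have e1 : δ * (4 * (C ^ 2 + 1) * B) ^ 2 ≤ (1 / 2) ^ w / 2 := by
      rw [mul_assoc (4 * (C ^ 2 + 1)), ← hB, ← le_div_iff₀ (by positivity)] at hs
      refine hs.trans (le_of_eq ?_)
      rw [one_div_pow, pow_succ]; field_simp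
    have e2 : C * B ≤ 4 * (C ^ 2 + 1) * B := mul_le_mul_of_nonneg_right (by nlinarith) hB0
    have e3 := mul_le_mul_of_nonneg_left (pow_le_pow_left₀ (by positivity) e2 2) hδ
    linarith
  have hs2 : δ * B ^ 2 ≤ pr unif E / 2 :=
    (mul_le_mul_of_nonneg_left (pow_le_pow_left₀ hB0 (le_mul_of_one_le_left hB0 hC) 2) hδ).trans hs1
  have hP0 : 0 ≤ pr unif E := le_trans (by positivity) hP
  refine ⟨(upper hK h0 hψ hJ hw hEE hp hδ).trans ?_, lower hC hK h0 hψ hJ hw hEE hp hδ (hB ▸ hs1)⟩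
  rw [← hB]
  nlinarith [mul_le_mul_of_nonneg_left hs2 (sq_nonneg C), mul_nonneg (sq_nonneg C) hP0]

end Pool.Agent.Lib.MP_ee7726_lc.SB
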