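import Pool.Agent.Lib.MP_ee7726_lc.SB.Defs2
import Pool.Agent.Lib.MP_ee7726_lc.SB.Growth

/-! The growth bound slightly outside the unit disc. -/

namespace Pool.Agent.Lib.MP_ee7726_lc.SB

open Finset

variable {ι : Type} [Fintype ι] [DecidableEq ι]

lemma ident {J : Type} [Fintype J] (b : J → ℂ) (e : J → ℕ) (b₀ : ℂ)
    (hb : ∀ z : ℂ, ∑ j, b j * z ^ e j = b₀) (φ : ℕ → ℂ) : ∑ j, b j * φ (e j) = b₀ * φ 0 := by
  let L : Polynomial ℂ →ₗ[ℂ] ℂ := Polynomial.lsum fun n => LinearMap.mulRight ℂ (φ n)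
  have hL : ∀ n a, L (Polynomial.monomial n a) = a * φ n := fun n a => by
    simp [L, Polynomial.lsum_apply, Polynomial.sum_monomial_index]
  have : ∑ j, Polynomial.monomial (e j) (b j) = Polynomial.monomial 0 b₀ :=
    Polynomial.funext fun z => by
      simp [Polynomial.eval_finset_sum, Polynomial.eval_monomial, hb]
  have h := congrArg L this
  simpa only [map_sum, hL] using h

lemma one_le_gr2 (ρ : ℝ) {r : ℝ} (ζ : ℂ) (h0 : 0 < r) (h1 : r < 1) : 1 ≤ gr2 ρ r ζ := by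
  have : 1 ≤ 1 / r := one_le_one_div h0 h1.le
  have : 0 ≤ ((ρ - 1) ^ 2 + ‖1 - ζ‖ ^ 2) / (1 - r) := div_nonneg (by positivity) (by linarith)
  unfold gr2; linarith

lemma gr2_one_le (ρ : ℝ) {r : ℝ} (ζ : ℂ) (h1 : r < 1) : gr2 1 r ζ ≤ gr2 ρ r ζ := by
  unfold gr2
  refine add_le_add le_rfl (div_le_div_of_nonneg_right ?_ (by linarith))
  nlinarith [sq_nonneg (ρ - 1)]

lemma one_le_rho (w : ℕ) : 1 ≤ rho w := le_add_of_nonneg_right (by positivity)

lemma rho_le_two {w : ℕ} (hw : 1 ≤ w) : rho w ≤ 2 := by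
  have : (1 : ℝ) ≤ w := by exact_mod_cast hw
  have : 1 / (128 * w : ℝ) ≤ 1 := (div_le_one (by positivity)).2 (by linarith)
  unfold rho; linarith

lemma growth_pt2 {w : ℕ} (c : Finset ι → ℂ) {I : Finset ι} (hI : I.card ≤ w) {ρ r : ℝ} {ζ : ℂ}
    (hρ : 1 ≤ ρ) (h0 : 0 < r) (h1 : r < 1) (hζ : ‖ζ‖ = 1) (x : ι → Bool) :
    ‖∑ S, c S * chi S x * (ρ * r * ζ) ^ (S \ I).card‖ ^ 2 ≤
      gr2 ρ r ζ ^ w * ∑ η, nu r η * ‖ev (fun S => c S * (ρ * ζ) ^ S.card * chi S η) x‖ ^ 2 := by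
  have hζ0 : ζ ≠ 0 := fun h => by simp [h] at hζ
  have hρ0 : 0 < ρ := by linarith
  have hρ1 : (ρ : ℂ) ≠ 0 := by exact_mod_cast hρ0.ne'
  let t : ι → ℂ := fun v => if v ∈ I then (ρ * ζ)⁻¹ else r
  have e1 : ∑ S, c S * chi S x * (ρ * r * ζ) ^ (S \ I).card = ∑ η : ι → Bool,
      (∏ v, (1 + t v * sg (η v)) / 2) * ev (fun S => c S * (ρ * ζ) ^ S.card * chi S η) x := by
    simp only [ev, mul_sum]
    rw [sum_comm]
    refine sum_congr rfl fun S _ => ?_
    have : (ρ * r * ζ) ^ (S \ I).card = (ρ * ζ) ^ S.card * ∏ v ∈ S, t v := by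
      rw [← prod_off, ← prod_const, ← prod_mul_distrib]
      refine prod_congr rfl fun v _ => ?_
      simp only [t]
      split_ifs
      · rw [mul_inv_cancel₀ (mul_ne_zero hρ1 hζ0)]
      · ring
    rw [this, prod_eq_kernel, mul_sum, mul_sum]
    exact sum_congr rfl fun η _ => by ring
  have hν : ∀ η : ι → Bool, 0 < nu r η := fun η => prod_pos fun v _ => nu1_pos h0 h1 _
  have e2 : ∑ η : ι → Bool, ‖∏ v, (1 + t v * sg (η v)) / 2‖ ^ 2 / nu r η ≤ gr2 ρ r ζ ^ w := by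
    simp only [norm_prod, ← prod_pow, nu, ← prod_div_distrib]
    rw [sum_prod_cube fun v b => ‖(1 + t v * sg b) / 2‖ ^ 2 / ((1 + r * sg b) / 2)]
    refine le_trans (prod_le_prod (g := fun v => if v ∈ I then gr2 ρ r ζ else 1) (fun v _ => ?_)
      fun v _ => ?_) ?_
    · exact add_nonneg (div_nonneg (by positivity) (nu1_pos h0 h1 _).le)
        (div_nonneg (by positivity) (nu1_pos h0 h1 _).le)
    · have hr : 0 < 1 - r := by linarith
      simp only [t]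
      split_ifs
      · have a0 : ‖((ρ : ℂ) * ζ)⁻¹‖ ≤ 1 := by
          rw [norm_inv, norm_mul, hζ, mul_one, Complex.norm_real, Real.norm_of_nonneg hρ0.le]
          exact inv_le_one_of_one_le₀ hρ
        have a1 : ‖(1 + ((ρ : ℂ) * ζ)⁻¹ * sg true) / 2‖ ≤ ((ρ - 1) + ‖1 - ζ‖) / 2 := by
          rw [show (1 + ((ρ : ℂ) * ζ)⁻¹ * sg true) / 2 =
            (ρ * ζ)⁻¹ * (((ρ - 1 : ℝ) : ℂ) * ζ - (1 - ζ)) / 2 by simp [sg]; field_simp; ring,
            norm_div, norm_mul, Complex.norm_ofNat]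
          have b1 := norm_sub_le (((ρ - 1 : ℝ) : ℂ) * ζ) (1 - ζ)
          rw [norm_mul, hζ, mul_one, Complex.norm_real, Real.norm_of_nonneg (by linarith)] at b1
          have b2 := mul_le_mul a0 b1 (norm_nonneg _) zero_le_one
          linarith
        have a2 : ‖(1 + ((ρ : ℂ) * ζ)⁻¹ * sg false) / 2‖ ≤ 1 := by
          have := norm_add_le 1 ((ρ : ℂ) * ζ)⁻¹
          simp only [norm_one] at this
          simp only [sg, Bool.false_eq_true, if_false, Complex.ofReal_one, mul_one, norm_div,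
            Complex.norm_ofNat]
          linarith
        have a3 : ‖(1 + ((ρ : ℂ) * ζ)⁻¹ * sg false) / 2‖ ^ 2 / ((1 + r * sg false) / 2) ≤
            1 / r := by
          refine div_le_div₀ zero_le_one (pow_le_one₀ (norm_nonneg _) a2) h0 ?_
          simp [sg]; linarith
        have a4 : ‖(1 + ((ρ : ℂ) * ζ)⁻¹ * sg true) / 2‖ ^ 2 / ((1 + r * sg true) / 2) ≤
            ((ρ - 1) ^ 2 + ‖1 - ζ‖ ^ 2) / (1 - r) := by
          have b1 := pow_le_pow_left₀ (norm_nonneg _) a1 2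
          rw [show (1 + r * sg true) / 2 = (1 - r) / 2 by simp [sg]; ring,
            div_le_div_iff₀ (by positivity) hr]
          nlinarith [mul_le_mul_of_nonneg_right b1 hr.le,
            mul_nonneg (sq_nonneg (ρ - 1 - ‖1 - ζ‖)) hr.le]
        unfold gr2; linarith
      · have a1 : ∀ b, ‖(1 + (r : ℂ) * sg b) / 2‖ ^ 2 / ((1 + r * sg b) / 2) =
            (1 + r * sg b) / 2 := fun b => by
          have hb := nu1_pos h0 h1 b
          rw [show (1 + (r : ℂ) * sg b) / 2 = ((1 + r * sg b) / 2 : ℝ) by push_cast; rfl,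
            Complex.norm_real, Real.norm_of_nonneg hb.le, pow_two, mul_div_assoc, div_self hb.ne',
            mul_one]
        rw [a1, a1]; simp [sg]; linarith
    · rw [prod_ite_mem, univ_inter, prod_const]
      exact pow_le_pow_right₀ (one_le_gr2 ρ ζ h0 h1) hI
  rw [e1]
  refine le_trans (pow_le_pow_left₀ (norm_nonneg _) (norm_sum_le _ _) 2) ?_
  simp only [norm_mul]
  refine (cs_div _ _ _ _ hν).trans (mul_le_mul_of_nonneg_right e2 ?_)
  exact sum_nonneg fun η _ => mul_nonneg (hν η).le (by positivity)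

lemma growth_avg {w : ℕ} {κ : Type} [Fintype κ] {I : κ → Finset ι} (hI : ∀ i, (I i).card ≤ w)
    {p : (ι → Bool) → ℝ} {K : ℕ} {δ : ℝ} (hp : Biased p (2 * K) δ) (hδ : 0 ≤ δ)
    (μ : κ → (ι → Bool) → ℂ) (α : (ι → Bool) → ℝ) (hμ : ∀ x, ∑ i, ‖μ i x‖ ≤ p x * α x)
    (c : Finset ι → ℂ) (hc : ∀ S, K < S.card → c S = 0) {ρ r : ℝ} {ζ : ℂ}
    (hρ : 1 ≤ ρ) (h0 : 0 < r) (h1 : r < 1) (hζ : ‖ζ‖ = 1) :
    ‖∑ i, ∑ x, μ i x * ∑ S, c S * chi S x * (ρ * r * ζ) ^ (S \ I i).card‖ ^ 2 ≤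
      (∑ x, p x * α x ^ 2) * (∑ S, (‖c S‖ * ρ ^ S.card) ^ 2 + δ * (∑ S, ‖c S‖ * ρ ^ S.card) ^ 2) *
        gr2 ρ r ζ ^ w := by
  have hν : ∀ η : ι → Bool, 0 < nu r η := fun η => prod_pos fun v _ => nu1_pos h0 h1 _
  have hg : 0 ≤ gr2 ρ r ζ ^ w := pow_nonneg (zero_le_one.trans (one_le_gr2 ρ ζ h0 h1)) _
  let Q : (ι → Bool) → ℝ := fun x =>
    ∑ η, nu r η * ‖ev (fun S => c S * (ρ * ζ) ^ S.card * chi S η) x‖ ^ 2
  have hQ0 : ∀ x, 0 ≤ Q x := fun x => sum_nonneg fun η _ => mul_nonneg (hν η).le (by positivity)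
  have hQ : ∑ x, p x * Q x ≤
      ∑ S, (‖c S‖ * ρ ^ S.card) ^ 2 + δ * (∑ S, ‖c S‖ * ρ ^ S.card) ^ 2 := by
    simp only [Q, mul_sum]
    rw [sum_comm, ← one_mul (_ + _ : ℝ), ← sum_nu (ι := ι) r, sum_mul]
    refine sum_le_sum fun η _ => ?_
    have h2 := (abs_le.1 (hp.sq hδ le_rfl (fun S => c S * (ρ * ζ) ^ S.card * chi S η)
      fun S hS => by simp [hc S hS])).2
    simp only [norm_mul, norm_pow, hζ, mul_one, norm_chi, Complex.norm_real,
      Real.norm_eq_abs, abs_chi, abs_of_nonneg (zero_le_one.trans hρ)] at h2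
    simp only [mul_left_comm _ (nu r η), ← mul_sum]
    exact mul_le_mul_of_nonneg_left (by linarith) (hν η).le
  have h3 : ‖∑ i, ∑ x, μ i x * ∑ S, c S * chi S x * (ρ * r * ζ) ^ (S \ I i).card‖ ≤
      ∑ x, (√(p x) * α x) * (√(p x) * √(gr2 ρ r ζ ^ w * Q x)) := by
    rw [sum_comm]
    refine (norm_sum_le _ _).trans (sum_le_sum fun x _ => (norm_sum_le _ _).trans ?_)
    rw [mul_mul_mul_comm, Real.mul_self_sqrt (hp.nonneg x), ← mul_assoc]
    refine le_trans ?_ (mul_le_mul_of_nonneg_right (hμ x) (Real.sqrt_nonneg _))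
    rw [sum_mul]
    refine sum_le_sum fun i _ => ?_
    rw [norm_mul]
    exact mul_le_mul_of_nonneg_left
      (Real.le_sqrt_of_sq_le (growth_pt2 c (hI i) hρ h0 h1 hζ x)) (norm_nonneg _)
  refine ((pow_le_pow_left₀ (norm_nonneg _) h3 2).trans (sum_mul_sq_le_sq_mul_sq _ _ _)).trans ?_
  simp only [mul_pow, Real.sq_sqrt (hp.nonneg _), Real.sq_sqrt (mul_nonneg hg (hQ0 _))]
  rw [mul_assoc]
  refine mul_le_mul_of_nonneg_left ?_
    (sum_nonneg fun x _ => mul_nonneg (hp.nonneg x) (sq_nonneg _))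
  simp only [mul_left_comm _ (gr2 ρ r ζ ^ w), ← mul_sum]
  rw [mul_comm]
  refine mul_le_mul_of_nonneg_right ?_ hg
  simpa only [mul_pow] using hQ

variable {w : ℕ} {η : ℝ} {ψ : ℕ → ℂ}

lemma KP2.near (h : KP2 w η ψ) (k : ℕ) : ‖1 - ψ k‖ ≤ η * rho w ^ k := by
  have hρ := one_le_rho w
  have := h Unit (fun _ => 1) (fun _ => k) (rho w ^ k) (by positivity) fun r ζ h0 h1 hζ => by
    have h2 : 1 ≤ gr2 (rho w) r ζ ^ w := one_le_pow₀ (one_le_gr2 _ ζ h0 h1)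
    have h3 : ‖(rho w * r * ζ : ℂ) ^ k‖ ≤ rho w ^ k := by
      rw [norm_pow, norm_mul, norm_mul, hζ, mul_one, Complex.norm_real, Complex.norm_real,
        Real.norm_of_nonneg (by linarith), Real.norm_of_nonneg h0.le]
      exact pow_le_pow_left₀ (by positivity) (mul_le_of_le_one_right (by linarith) h1.le) _
    simp only [univ_unique, sum_singleton, one_mul]
    exact (pow_le_pow_left₀ (norm_nonneg _) h3 2).trans (le_mul_of_one_le_right (by positivity) h2)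
  simpa using this

end Pool.Agent.Lib.MP_ee7726_lc.SB
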