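import Pool.Agent.Lib.MP_ee7726_lc.SB.Core
import Pool.Agent.Lib.MP_ee7726_lc.SB.Growth2

/-! Laws of small bias fool DNFs of width `w` up to a factor close to one. -/

namespace Pool.Agent.Lib.MP_ee7726_lc.SB

open Finset

variable {ι : Type} [Fintype ι] [DecidableEq ι] {κ : Type} [Fintype κ] [LinearOrder κ]
  {I : κ → Finset ι} {a : κ → ι → Bool} {w D : ℕ} {η : ℝ} {ψ : ℕ → ℂ}

lemma le_sq_of_le_sqrt {m B η : ℝ} (hm : 0 ≤ m) (hB : 0 ≤ B) (h : m ≤ η * √(m * B)) :
    m ≤ η ^ 2 * B := le_of_le_sqrt hm hB h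

lemma orth (c : Finset ι → ℝ) (T : Finset ι) :
    ∑ x, unif x * ((∑ S, c S * chi S x) * chi T x) = c T := by
  simp only [sum_mul, mul_sum, mul_assoc, chi_mul]
  rw [sum_comm, sum_eq_single T (fun S _ hS => ?_) (by simp)]
  · simp only [symmDiff_self, bot_eq_empty, chi_empty, mul_one, ← sum_mul]
    rw [(biased_unif (ι := ι) 0).total, one_mul]
  · simp only [unif, ← mul_sum]
    rw [sum_chi (symmDiff_nonempty.2 hS)]; simp

lemma differ {E : Set (ι → Bool)} (hE : ∀ x, x ∈ E ↔ ∃ i, Unf I a ∅ i x) {i : κ} {x y : ι → Bool}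
    (hx : Fu I a ∅ i x) (hy : y ∉ E) (z : ℂ) :
    ∃ v, 1 + (if v ∈ I i then 1 else z) * sg (y v) * sg (x v) = 0 := by
  have : ¬ Unf I a ∅ i y := fun h => hy ((hE y).2 ⟨i, h⟩)
  simp only [Unf, not_forall] at this
  obtain ⟨v, hv, hv', hne⟩ := this
  rw [← hx.1 v hv hv'] at hne
  refine ⟨v, ?_⟩
  rw [if_pos hv]
  revert hne
  cases y v <;> cases x v <;> simp [sg]

open Classical in
lemma hat_ind {E : Set (ι → Bool)} (hE : ∀ x, x ∈ E ↔ ∃ i, Unf I a ∅ i x) (S : Finset ι) :
    hat (fun x => if x ∈ E then 1 else 0) S = ∑ i, hat (fst I a i) S := by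
  simp only [hat]
  rw [sum_comm]
  simp only [← mul_sum, ← sum_mul, sum_fst_eq hE]

lemma pr_nonneg {p : (ι → Bool) → ℝ} (hp : ∀ x, 0 ≤ p x) (E : Set (ι → Bool)) : 0 ≤ pr p E :=
  sum_nonneg fun x _ => by
    split_ifs
    · exact hp x
    · exact le_rfl

lemma upper2 (hT : TwoSet) (hη : 0 < η) (hη1 : η ≤ 1 / 10) (hK : KP2 w η ψ)
    (hD : ∀ k, D < k → ψ k = 0) (hw : ∀ i, (I i).card ≤ w) (h1 : 1 ≤ w) {E : Set (ι → Bool)}
    (hE : ∀ x, x ∈ E ↔ ∃ i, Unf I a ∅ i x) {p : (ι → Bool) → ℝ} {δ : ℝ}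
    (hp : Biased p (2 * (D + w)) δ) (hδ : 0 ≤ δ)
    (hs : δ * (2 ^ (D + w) * (((D + w : ℕ) + 1) * (4 * w : ℝ) ^ (D + w))) ^ 2 ≤ η * pr unif E) :
    pr p E ≤ (1 + 10 * η) * pr unif E := by
  classical
  let f : (ι → Bool) → ℝ := fun x => if x ∈ E then 1 else 0
  let c : Finset ι → ℂ := fun S => if S.card ≤ D + w then hat f S else 0
  have hc : ∀ S, D + w < S.card → c S = 0 := fun S hS => if_neg (not_le.2 hS)
  have hρ := one_le_rho w
  have hP := pr_nonneg (fun x : ι → Bool => (unif_pos x).le) E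
  have e1 : ∀ i x, Fu I a ∅ i x →
      ∑ S, c S * chi S x * (1 - ψ (S \ I i).card) = ev c x - ψ 0 := by
    intro i x hx
    have e2 := ident (fun S : Finset ι => (hat f S : ℂ) * chi S x) (fun S => (S \ I i).card) 1
      (fun z => by
        have e3 := ev_hat_mul f (fun v => if v ∈ I i then 1 else z) x
        simp only [prod_off] at e3
        rw [sum_congr rfl fun S _ => show (hat f S : ℂ) * chi S x * z ^ (S \ I i).card =
          z ^ (S \ I i).card * hat f S * chi S x by ring, e3]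
        rw [sum_congr rfl fun y _ => show (f y : ℂ) * _ = ∏ v, (1 + (if v ∈ I i then 1 else z) *
          sg (y v) * sg (x v)) / 2 from ?_,
          sum_prod_cube fun v b => (1 + (if v ∈ I i then 1 else z) * sg b * sg (x v)) / 2]
        · exact prod_eq_one fun v _ => by simp [sg]; ring
        · by_cases hy : y ∈ E
          · simp [f, hy]
          · obtain ⟨v, hv⟩ := differ hE hx hy z
            rw [prod_eq_zero (mem_univ v) (by rw [hv, zero_div]), mul_zero]) ψ
    rw [one_mul] at e2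
    simp only [mul_sub, mul_one, sum_sub_distrib]
    rw [← e2, ev]
    congr 1
    refine sum_congr rfl fun S _ => ?_
    simp only [c]
    split_ifs with h
    · rfl
    · rw [hD _ (card_sdiff_gt hw (not_le.1 h) i), mul_zero, mul_zero]
  have c1 : ∑ S, ‖c S‖ * rho w ^ S.card ≤
      2 ^ (D + w) * (((D + w : ℕ) + 1) * (4 * w : ℝ) ^ (D + w)) := by
    refine le_trans ?_ (mul_le_mul_of_nonneg_left (l1_le (a := a) hw h1 (D + w)) (by positivity))
    rw [mul_sum]
    refine sum_le_sum fun S _ => ?_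
    simp only [c]
    split_ifs with h
    · rw [Complex.norm_real, Real.norm_eq_abs, mul_comm, hat_ind hE]
      exact mul_le_mul ((pow_le_pow_left₀ (by linarith) (rho_le_two h1) _).trans
        (pow_le_pow_right₀ one_le_two h)) (abs_sum_le_sum_abs _ _) (abs_nonneg _) (by positivity)
    · simp
  have c2 : ∑ S, (‖c S‖ * rho w ^ S.card) ^ 2 ≤ 2 * pr unif E := by
    have h2 := hT ι κ I a w hw h1 (fun _ _ => rho w) fun _ _ => by
      rw [rho, add_sub_cancel_left, abs_of_nonneg (by positivity)]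
    rw [sum_mu hE unif] at h2
    refine le_trans ?_ (le_trans ?_ h2)
      (b := ∑ S, ‖((rho w ^ S.card * hat f S : ℝ) : ℂ)‖ ^ 2)
    · refine sum_le_sum fun S _ => ?_
      simp only [c]
      split_ifs
      · rw [Complex.norm_real, Complex.norm_real, norm_mul, mul_comm,
          Real.norm_of_nonneg (r := rho w ^ S.card) (by positivity)]
      · simp only [norm_zero, zero_mul]
        exact pow_le_pow_left₀ le_rfl (norm_nonneg _) 2
    · rw [← parseval]
      refine sum_le_sum fun x _ => mul_le_mul_of_nonneg_left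
        (pow_le_pow_left₀ (norm_nonneg _) ?_ 2) (unif_pos x).le
      refine le_trans (le_of_eq ?_) (abs_sum_le_sum_abs _ _)
      rw [ev, sum_comm, ← Real.norm_eq_abs, ← Complex.norm_real, Complex.ofReal_sum]
      congr 1
      refine sum_congr rfl fun S _ => ?_
      rw [hat_ind hE, ← sum_mul, ← mul_sum, prod_const, Complex.ofReal_mul (_ * _)]
  have c3 : ∑ S, ‖c S‖ ≤ ∑ S, ‖c S‖ * rho w ^ S.card :=
    sum_le_sum fun S _ => le_mul_of_one_le_right (norm_nonneg _) (one_le_pow₀ hρ)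
  have c4 : ∑ S, ‖c S‖ ^ 2 ≤ pr unif E :=
    calc ∑ S, ‖c S‖ ^ 2 ≤ ∑ S, ‖(hat f S : ℂ)‖ ^ 2 := sum_le_sum fun S _ => by
          simp only [c]; split_ifs <;> simp [sq_nonneg]
      _ = pr unif E := by
          rw [← parseval, pr]
          refine sum_congr rfl fun x _ => ?_
          rw [ev_hat]; simp only [f]; split_ifs <;> simp
  have d1 : δ * (∑ S, ‖c S‖ * rho w ^ S.card) ^ 2 ≤ η * pr unif E :=
    (mul_le_mul_of_nonneg_left (pow_le_pow_left₀ (by positivity) c1 2) hδ).trans hs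
  have d2 : δ * (∑ S, ‖c S‖) ^ 2 ≤ η * pr unif E :=
    (mul_le_mul_of_nonneg_left (pow_le_pow_left₀ (by positivity) c3 2) hδ).trans d1
  obtain ⟨A, hA⟩ : ∃ A, A = ∑ x, p x * (f x * ‖ev c x - ψ 0‖) ^ 2 := ⟨_, rfl⟩
  have hA0 : 0 ≤ A := hA ▸ sum_nonneg fun x _ => mul_nonneg (hp.nonneg x) (sq_nonneg _)
  have key := hK (κ × (ι → Bool) × Finset ι)
    (fun j => (p j.2.1 * fst I a j.1 j.2.1 : ℝ) * (starRingEnd ℂ) (ev c j.2.1 - ψ 0) *
      (c j.2.2 * chi j.2.2 j.2.1)) (fun j => (j.2.2 \ I j.1).card)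
    (√(A * (3 * pr unif E))) (Real.sqrt_nonneg _) fun r ζ h0 h1' hζ => by
      have h2 := growth_avg hw hp hδ
        (fun i x => (p x * fst I a i x : ℝ) * (starRingEnd ℂ) (ev c x - ψ 0))
        (fun x => f x * ‖ev c x - ψ 0‖) (fun x => le_of_eq (by
          simp only [norm_mul, Complex.norm_real, Complex.norm_conj, Real.norm_of_nonneg
            (hp.nonneg x), Real.norm_of_nonneg (fst_nonneg _ x), ← sum_mul, ← mul_sum,
            sum_fst_eq hE, mul_assoc, f])) c hc hρ h0 h1' hζ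
      rw [← hA] at h2
      rw [Real.sq_sqrt (by positivity)]
      refine le_trans (le_of_eq ?_) (h2.trans (mul_le_mul_of_nonneg_right
        (mul_le_mul_of_nonneg_left (by nlinarith) hA0)
        (pow_nonneg (zero_le_one.trans (one_le_gr2 _ ζ h0 h1')) _)))
      simp only [Fintype.sum_prod_type, mul_sum, mul_assoc]
  have e4 : ∑ j : κ × (ι → Bool) × Finset ι, ((p j.2.1 * fst I a j.1 j.2.1 : ℝ) : ℂ) *
      (starRingEnd ℂ) (ev c j.2.1 - ψ 0) * (c j.2.2 * chi j.2.2 j.2.1) *
        (1 - ψ (j.2.2 \ I j.1).card) = (A : ℝ) := by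
    simp only [Fintype.sum_prod_type, mul_assoc _ (c _ * _), ← mul_sum]
    rw [sum_comm, hA, Complex.ofReal_sum]
    refine sum_congr rfl fun x _ => ?_
    rw [sum_congr rfl fun i _ => show _ = ((p x * fst I a i x : ℝ) : ℂ) *
      ((‖ev c x - ψ 0‖ ^ 2 : ℝ) : ℂ) from ?_, ← sum_mul, ← Complex.ofReal_sum, ← mul_sum,
      sum_fst_eq hE, ← Complex.ofReal_mul]
    · simp only [f]; split_ifs <;> simp
    · by_cases hx : Fu I a ∅ i x
      · rw [e1 i x hx, mul_assoc, Complex.conj_mul']; push_cast; rfl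
      · simp [fst, hx]
  rw [e4, Complex.norm_real, Real.norm_of_nonneg hA0] at key
  have d3 := le_sq_of_le_sqrt hA0 (by positivity) key
  have d4 := (abs_le.1 (hp.sq hδ le_rfl c hc)).2
  have d5 : 1 - η ≤ ‖ψ 0‖ := by
    have h2 := hK.near 0
    have h3 := norm_sub_norm_le 1 (ψ 0)
    rw [pow_zero, mul_one] at h2
    rw [norm_one] at h3
    linarith
  have d6 : η * (1 - η) ^ 2 * pr p E ≤
      η * (1 + η) * ∑ x, p x * ‖ev c x‖ ^ 2 + (1 + η) * A := by
    rw [pr, hA, mul_sum, mul_sum, mul_sum, ← sum_add_distrib]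
    refine sum_le_sum fun x _ => ?_
    have hx := hp.nonneg x
    simp only [f]
    split_ifs
    · have h2 := norm_sub_le (ev c x) (ev c x - ψ 0)
      rw [sub_sub_cancel] at h2
      have h3 := pow_le_pow_left₀ (by linarith) (d5.trans h2) 2
      have h4 : η * (1 - η) ^ 2 ≤
          η * (1 + η) * ‖ev c x‖ ^ 2 + (1 + η) * ‖ev c x - ψ 0‖ ^ 2 := by
        nlinarith [mul_le_mul_of_nonneg_left h3 hη.le, sq_nonneg (η * ‖ev c x‖ - ‖ev c x - ψ 0‖)]
      rw [one_mul]
      nlinarith [mul_le_mul_of_nonneg_right h4 hx]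
    · rw [mul_zero]; positivity
  have d7 : ∑ x, p x * ‖ev c x‖ ^ 2 ≤ (1 + η) * pr unif E := by linarith
  have d8 : (1 - η) ^ 2 * pr p E ≤ ((1 + η) ^ 2 + 3 * η * (1 + η)) * pr unif E := by
    refine le_of_mul_le_mul_left ?_ hη
    nlinarith [mul_le_mul_of_nonneg_left d7 (by positivity : 0 ≤ η * (1 + η)),
      mul_le_mul_of_nonneg_left d3 (by positivity : 0 ≤ 1 + η)]
  refine le_of_mul_le_mul_left (d8.trans ?_) (show 0 < (1 - η) ^ 2 by nlinarith)
  rw [← mul_assoc]
  refine mul_le_mul_of_nonneg_right ?_ hP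
  nlinarith [mul_nonneg hη.le hη.le, mul_nonneg (mul_nonneg hη.le hη.le) hη.le]

lemma lower2 (hT : TwoSet) (hη : 0 < η) (hη1 : η ≤ 1 / 10) (hK : KP2 w η ψ)
    (hD : ∀ k, D < k → ψ k = 0) (hw : ∀ i, (I i).card ≤ w) (h1 : 1 ≤ w) {E : Set (ι → Bool)}
    (hE : ∀ x, x ∈ E ↔ ∃ i, Unf I a ∅ i x) {p : (ι → Bool) → ℝ} {δ : ℝ}
    (hp : Biased p (2 * (D + w)) δ) (hδ : 0 ≤ δ)
    (hs : δ * (2 * 2 ^ (D + w) * (((D + w : ℕ) + 1) * (4 * w : ℝ) ^ (D + w))) ^ 2 ≤
      η * pr unif E) :
    (1 - 10 * η) * pr unif E ≤ pr p E := by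
  classical
  obtain ⟨A, hA⟩ : ∃ A, A = 2 * 2 ^ (D + w) * (((D + w : ℕ) + 1) * (4 * w : ℝ) ^ (D + w)) :=
    ⟨_, rfl⟩
  rw [← hA] at hs
  have hA1 : 1 ≤ A := by
    have : (1 : ℝ) ≤ w := by exact_mod_cast h1
    rw [hA]
    refine one_le_mul_of_one_le_of_one_le (one_le_mul_of_one_le_of_one_le one_le_two
      (one_le_pow₀ one_le_two)) (one_le_mul_of_one_le_of_one_le
      (le_add_of_nonneg_left (by positivity)) (one_le_pow₀ (by linarith)))
  have hρ := one_le_rho w
  let f : (ι → Bool) → ℝ := fun x => if x ∈ E then 1 else 0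
  let c : Finset ι → ℂ := fun S => ∑ i, ψ (S \ I i).card * hat (fst I a i) S
  have hc : ∀ S, D + w < S.card → c S = 0 := fun S hS =>
    sum_eq_zero fun i _ => by rw [hD _ (card_sdiff_gt hw hS i), zero_mul]
  have hP := pr_nonneg (fun x : ι → Bool => (unif_pos x).le) E
  have c1 : ∑ S, ‖c S‖ ≤ A := by
    rw [hA]
    refine le_trans ?_ (mul_le_mul_of_nonneg_left (l1_le (a := a) hw h1 (D + w)) (by positivity))
    rw [mul_sum]
    refine sum_le_sum fun S _ => ?_
    split_ifs with h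
    · rw [mul_sum]
      refine (norm_sum_le _ _).trans (sum_le_sum fun i _ => ?_)
      rw [norm_mul, Complex.norm_real, Real.norm_eq_abs]
      refine mul_le_mul_of_nonneg_right ?_ (abs_nonneg _)
      have h2 := hK.near (S \ I i).card
      have h3 := norm_sub_le 1 (1 - ψ (S \ I i).card)
      rw [sub_sub_cancel, norm_one] at h3
      have h4 : rho w ^ (S \ I i).card ≤ 2 ^ (D + w) :=
        (pow_le_pow_left₀ (by linarith) (rho_le_two h1) _).trans
          (pow_le_pow_right₀ one_le_two ((card_le_card sdiff_subset).trans h))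
      have h5 : (1 : ℝ) ≤ 2 ^ (D + w) := one_le_pow₀ one_le_two
      nlinarith [mul_le_mul_of_nonneg_left h4 hη.le]
    · simp [hc S (not_le.1 h)]
  have c3 : ∀ y, y ∉ E → ev c y = 0 := fun y hy => by
    have ex : ev c y = ∑ i, ∑ x, ((unif x * fst I a i x : ℝ) : ℂ) *
        ∑ S, (chi S y : ℂ) * chi S x * ψ (S \ I i).card := by
      simp only [ev, c, hat, mul_sum, sum_mul, Complex.ofReal_sum]
      rw [sum_comm]
      refine sum_congr rfl fun i _ => ?_
      rw [sum_comm]
      refine sum_congr rfl fun x _ => sum_congr rfl fun S _ => ?_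
      push_cast; ring
    rw [ex]
    refine sum_eq_zero fun i _ => sum_eq_zero fun x _ => ?_
    by_cases hx : Fu I a ∅ i x
    · rw [ident (fun S : Finset ι => (chi S y : ℂ) * chi S x) (fun S => (S \ I i).card) 0
        fun z => ?_, zero_mul, mul_zero]
      have e3 := sum_chi_chi (fun v => if v ∈ I i then 1 else z) x y
      simp only [prod_off] at e3
      rw [sum_congr rfl fun S _ => show (chi S y : ℂ) * chi S x * z ^ (S \ I i).card =
          z ^ (S \ I i).card * chi S y * chi S x by ring, e3]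
      obtain ⟨v, hv⟩ := differ hE hx hy z
      exact prod_eq_zero (mem_univ v) hv
    · simp [fst, hx]
  let h : Finset ι → ℂ := fun S => hat f S - c S
  have hh : ∀ S, h S = ∑ i, hat (fst I a i) S * (1 - ψ (S \ I i).card) := fun S => by
    simp only [h, c, f]
    rw [hat_ind hE, Complex.ofReal_sum, ← sum_sub_distrib]
    exact sum_congr rfl fun i _ => by ring
  have c2 : ∑ S, ‖h S‖ ^ 2 ≤ η ^ 2 * (2 * pr unif E) := by
    let G : κ → (ι → Bool) → ℝ := fun i x =>
      ∑ S, (∏ v ∈ S, if v ∈ I i then 1 else rho w) * hat (fst I a i) S * chi S x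
    have h2 := hT ι κ I a w hw h1 (fun i v => if v ∈ I i then 1 else rho w) fun _ _ => by
      split_ifs
      · simp
      · rw [rho, add_sub_cancel_left, abs_of_nonneg (by positivity)]
    rw [sum_mu hE unif] at h2
    have key := hK (κ × Finset ι) (fun j => (starRingEnd ℂ) (h j.2) * hat (fst I a j.1) j.2)
      (fun j => (j.2 \ I j.1).card) (√((∑ S, ‖h S‖ ^ 2) * (2 * pr unif E))) (Real.sqrt_nonneg _)
      fun r ζ h0 h1' hζ => by
        have h3 := growth_avg hw (biased_unif (2 * Fintype.card ι)) le_rfl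
          (fun i x => ((unif x * G i x : ℝ) : ℂ)) (fun x => ∑ i, |G i x|)
          (fun x => le_of_eq (by
            simp only [Complex.norm_real, norm_mul, Real.norm_eq_abs, abs_of_pos (unif_pos x),
              mul_sum]))
          (fun S => (starRingEnd ℂ) (h S)) (fun S hS => absurd (card_le_univ S) (not_le.2 hS))
          le_rfl h0 h1' hζ
        simp only [one_pow, mul_one, zero_mul, add_zero, Complex.norm_conj, Complex.ofReal_one,
          one_mul] at h3
        rw [Real.sq_sqrt (by positivity), mul_comm (∑ S, ‖h S‖ ^ 2)]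
        refine le_trans (le_of_eq ?_) (h3.trans (mul_le_mul (mul_le_mul_of_nonneg_right h2
          (by positivity)) (pow_le_pow_left₀ (zero_le_one.trans (one_le_gr2 _ ζ h0 h1'))
            (gr2_one_le _ ζ h1') _) (pow_nonneg (zero_le_one.trans (one_le_gr2 _ ζ h0 h1')) _)
            (by positivity)))
        congr 2
        rw [Fintype.sum_prod_type]
        refine sum_congr rfl fun i _ => ?_
        simp only [mul_sum]
        rw [sum_comm]
        refine sum_congr rfl fun S _ => ?_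
        have e5 := congrArg (fun t : ℝ => (t : ℂ))
          (orth (fun S => (∏ v ∈ S, if v ∈ I i then 1 else rho w) * hat (fst I a i) S) S)
        have e6 : ((∏ v ∈ S, if v ∈ I i then 1 else rho w : ℝ) : ℂ) = rho w ^ (S \ I i).card := by
          rw [← prod_off, Complex.ofReal_prod]
          exact prod_congr rfl fun v _ => by split_ifs <;> simp
        simp only [Complex.ofReal_sum, Complex.ofReal_mul (unif _), Complex.ofReal_mul _ (chi _ _),
          Complex.ofReal_mul _ (hat _ _), e6] at e5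
        rw [mul_assoc (rho w : ℂ), mul_pow, show (starRingEnd ℂ) (h S) * hat (fst I a i) S *
          (rho w ^ (S \ I i).card * (r * ζ) ^ (S \ I i).card) = (starRingEnd ℂ) (h S) *
          (r * ζ) ^ (S \ I i).card * (rho w ^ (S \ I i).card * hat (fst I a i) S) by ring, ← e5,
          mul_sum]
        refine sum_congr rfl fun x _ => ?_
        simp only [G, Complex.ofReal_mul (unif _), Complex.ofReal_sum, Complex.ofReal_mul _ (chi _ _),
          Complex.ofReal_mul _ (hat _ _)]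
        ring
    rw [Fintype.sum_prod_type_right] at key
    simp only [mul_assoc, ← mul_sum, ← hh, Complex.conj_mul', ← Complex.ofReal_pow,
      ← Complex.ofReal_sum, Complex.norm_real] at key
    rw [Real.norm_of_nonneg (by positivity)] at key
    exact le_sq_of_le_sqrt (by positivity) (by positivity) key
  have hS0 : 0 ≤ ∑ S, ‖c S‖ := by positivity
  have d1 := hp.mean hδ c fun S hS => hc S (by omega)
  have d1' := (biased_unif (ι := ι) (D + w)).mean le_rfl c hc
  have d2 := (abs_le.1 (hp.sq hδ le_rfl c hc)).2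
  have d3 : δ * (∑ S, ‖c S‖) ^ 2 ≤ η * pr unif E :=
    (mul_le_mul_of_nonneg_left (pow_le_pow_left₀ hS0 c1 2) hδ).trans hs
  have d4 : δ * ∑ S, ‖c S‖ ≤ η * pr unif E :=
    (mul_le_mul_of_nonneg_left (c1.trans (by nlinarith)) hδ).trans hs
  have re : ∀ q : (ι → Bool) → ℝ, (∑ x, (q x : ℂ) * ev c x - c ∅).re =
      ∑ x, q x * (ev c x).re - (c ∅).re := fun q => by simp
  have d5 : (c ∅).re - η * pr unif E ≤ ∑ x, p x * (ev c x).re := by
    have := (abs_le.1 ((Complex.abs_re_le_norm _).trans d1)).1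
    rw [re] at this; linarith
  have d6 : ∑ x, unif x * (ev c x).re = (c ∅).re := by
    have := (Complex.abs_re_le_norm _).trans d1'
    rw [re, zero_mul, abs_nonpos_iff, sub_eq_zero] at this
    exact this
  have d7 : ∑ S, ‖h S‖ ^ 2 = pr unif E - 2 * (c ∅).re + ∑ S, ‖c S‖ ^ 2 := by
    rw [← parseval, ← parseval, ← d6, pr, mul_sum, ← sum_sub_distrib, ← sum_add_distrib]
    refine sum_congr rfl fun x _ => ?_
    have : ev h x = f x - ev c x := by
      rw [← ev_hat]; simp only [ev, h, sub_mul, sum_sub_distrib]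
    rw [this]
    simp only [f]
    split_ifs with hx
    · rw [Complex.sq_norm, Complex.sq_norm, Complex.normSq_apply, Complex.normSq_apply]
      simp; ring
    · simp [c3 x hx]
  have d8 : 2 * ∑ x, p x * (ev c x).re - ∑ x, p x * ‖ev c x‖ ^ 2 ≤ pr p E := by
    rw [pr, mul_sum, ← sum_sub_distrib]
    refine sum_le_sum fun x _ => ?_
    split_ifs with hx
    · rw [Complex.sq_norm, Complex.normSq_apply]
      nlinarith [mul_nonneg (hp.nonneg x) (sq_nonneg (1 - (ev c x).re)),
        mul_nonneg (hp.nonneg x) (sq_nonneg (ev c x).im)]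
    · simp [c3 x hx]
  nlinarith [mul_nonneg hη.le hP, mul_le_mul_of_nonneg_right hη1 (mul_nonneg hη.le hP)]

theorem core2 (h : Kernel2) (hT : TwoSet) : ∃ C : ℝ, 1 ≤ C ∧ ∀ w : ℕ, 1 ≤ w → ∀ ε : ℝ, 0 < ε →
    ε ≤ 1 → ∃ K : ℕ, (K : ℝ) ≤ C * w * (Real.log (w + 1) ^ 2 + Real.log (1 / ε)) ∧ w ≤ K ∧
    ∀ (ι : Type) [Fintype ι] [DecidableEq ι] (E : Set (ι → Bool)) (p : (ι → Bool) → ℝ) (δ : ℝ),
      Width w E → Biased p (2 * K) δ → 0 ≤ δ →
      δ * (2 * (K + 1) * (8 * w) ^ K) ^ 2 * 2 ^ w * 10 ≤ ε →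
      (1 - ε) * pr unif E ≤ pr p E ∧ pr p E ≤ (1 + ε) * pr unif E := by
  obtain ⟨C, hC, h⟩ := h
  refine ⟨6 * C + 3, by linarith, fun w hw ε hε hε1 => ?_⟩
  obtain ⟨D, ψ, hD, hψ, hK⟩ := h w hw (ε / 10) (by positivity) (by linarith)
  have hw1 : (1 : ℝ) ≤ w := by exact_mod_cast hw
  refine ⟨D + w, ?_, by omega, fun ι _ _ E p δ hE hp hδ hs => ?_⟩
  · have h1 : Real.log 2 ≤ Real.log (w + 1) := Real.log_le_log (by norm_num) (by linarith)
    have h2 := Real.log_two_gt_d9
    have h3 : 0.48 ≤ Real.log (w + 1) ^ 2 := by nlinarith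
    have h4 : 0 ≤ Real.log (1 / ε) := Real.log_nonneg (one_le_one_div hε hε1)
    have h5 : Real.log (1 / (ε / 10)) ≤ Real.log (1 / ε) + 2.4 := by
      rw [show 1 / (ε / 10) = 1 / ε * 10 by field_simp, Real.log_mul (by positivity) (by norm_num)]
      have : Real.log 10 ≤ 2.4 := by
        have e1 : Real.log 10 = 3 * Real.log 2 + Real.log (5 / 4) := by
          rw [show (10 : ℝ) = 2 ^ 3 * (5 / 4) by norm_num, Real.log_mul (by norm_num) (by norm_num),
            Real.log_pow]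
          norm_num
        have e2 := Real.log_le_sub_one_of_pos (show (0 : ℝ) < 5 / 4 by norm_num)
        have e3 := Real.log_two_lt_d9
        linarith
      linarith
    have h6 : 0 ≤ C * w := by positivity
    have h7 : (D : ℝ) ≤ C * w * (6 * (Real.log (w + 1) ^ 2 + Real.log (1 / ε))) :=
      hD.trans (mul_le_mul_of_nonneg_left (by linarith) h6)
    have h8 : (w : ℝ) * 1 ≤ w * (3 * (Real.log (w + 1) ^ 2 + Real.log (1 / ε))) :=
      mul_le_mul_of_nonneg_left (by linarith) (by linarith)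
    push_cast
    linarith
  classical
  rcases E.eq_empty_or_nonempty with rfl | ⟨x₀, hx₀⟩
  · simp [pr]
  have hP := hE.pr_ge hx₀
  choose J hJ hJE using fun x : E => hE x.1 x.2
  letI : Fintype E := Fintype.ofFinite _
  letI : LinearOrder E := LinearOrder.lift' (Fintype.equivFin E) (Fintype.equivFin E).injective
  have hEE : ∀ y, y ∈ E ↔ ∃ i : E, Unf J (fun i : E => i.1) ∅ i y := fun y =>
    ⟨fun hy => ⟨⟨y, hy⟩, fun _ _ _ => rfl⟩,
      fun ⟨i, hi⟩ => hJE i y fun v hv => hi v hv (notMem_empty v)⟩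
  obtain ⟨B, hB⟩ : ∃ B, B = 2 ^ (D + w) * (((D + w : ℕ) + 1) * (4 * w : ℝ) ^ (D + w)) := ⟨_, rfl⟩
  have hB0 : 0 ≤ B := by rw [hB]; positivity
  have hs1 : δ * (2 * B) ^ 2 ≤ ε / 10 * pr unif E := by
    have e1 : 2 * ((D + w : ℕ) + 1 : ℝ) * (8 * w) ^ (D + w) = 2 * B := by
      rw [hB, show (8 * w : ℝ) = 2 * (4 * w) by ring, mul_pow]; ring
    rw [e1, mul_assoc (δ * _), ← le_div_iff₀ (by positivity)] at hs
    refine hs.trans (le_trans (le_of_eq ?_) (mul_le_mul_of_nonneg_left hP (by positivity)))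
    rw [one_div_pow]; field_simp
  have hs2 : δ * B ^ 2 ≤ ε / 10 * pr unif E :=
    (mul_le_mul_of_nonneg_left (pow_le_pow_left₀ hB0 (by linarith) 2) hδ).trans hs1
  have hl := lower2 hT (by positivity) (by linarith) hK hψ hJ hw hEE hp hδ
    (by rw [mul_assoc 2, ← hB]; exact hs1)
  have hu := upper2 hT (by positivity) (by linarith) hK hψ hJ hw hEE hp hδ (hB ▸ hs2)
  rw [show 10 * (ε / 10) = ε by ring] at hl hu
  exact ⟨hl, hu⟩

end Pool.Agent.Lib.MP_ee7726_lc.SB
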