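import Pool.Agent.Lib.MP_ee7726_lc.SB.LK

/-! Statements of the two ingredients of the sharp form. -/

namespace Pool.Agent.Lib.MP_ee7726_lc.SB

open Finset

/-- the radius beyond the unit circle -/
noncomputable def rho (w : ℕ) : ℝ := 1 + 1 / (128 * w)

/-- the growth factor per coordinate -/
noncomputable def gr2 (ρ r : ℝ) (ζ : ℂ) : ℝ := 1 / r + ((ρ - 1) ^ 2 + ‖1 - ζ‖ ^ 2) / (1 - r)

/-- the high-pass part is small -/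
def KP2 (w : ℕ) (η : ℝ) (ψ : ℕ → ℂ) : Prop :=
  ∀ (J : Type) [Fintype J] (b : J → ℂ) (e : J → ℕ) (lam : ℝ), 0 ≤ lam →
    (∀ (r : ℝ) (ζ : ℂ), 0 < r → r < 1 → ‖ζ‖ = 1 →
      ‖∑ j, b j * (rho w * r * ζ) ^ e j‖ ^ 2 ≤ lam ^ 2 * gr2 (rho w) r ζ ^ w) →
    ‖∑ j, b j * (1 - ψ (e j))‖ ≤ η * lam

/-- the sharp kernel lemma -/
def Kernel2 : Prop :=
  ∃ C : ℝ, 1 ≤ C ∧ ∀ w : ℕ, 1 ≤ w → ∀ η : ℝ, 0 < η → η ≤ 1 → ∃ (D : ℕ) (ψ : ℕ → ℂ),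
    (D : ℝ) ≤ C * w * (Real.log (w + 1) ^ 2 + Real.log (1 / η)) ∧ (∀ k, D < k → ψ k = 0) ∧
      KP2 w η ψ

/-- the two-set lemma -/
def TwoSet : Prop :=
  ∀ (ι : Type) [Fintype ι] [DecidableEq ι] (κ : Type) [Fintype κ] [LinearOrder κ]
    (I : κ → Finset ι) (a : κ → ι → Bool) (w : ℕ), (∀ i, (I i).card ≤ w) → 1 ≤ w →
    ∀ t : κ → ι → ℝ, (∀ i v, |t i v - 1| ≤ 1 / (128 * w)) →
      ∑ x, unif x * (∑ i, |∑ S : Finset ι, (∏ v ∈ S, t i v) * hat (fst I a i) S * chi S x|) ^ 2 ≤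
        2 * ∑ i, ∑ x, unif x * fst I a i x

end Pool.Agent.Lib.MP_ee7726_lc.SB
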