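import Pool.Agent.Lib.MP_ee7726_lc.SB.Basic
import Pool.Agent.Lib.MP_ee7726_lc.KW.Ana

/-! The kernel lemma in normalised form. -/

namespace Pool.Agent.Lib.MP_ee7726_lc.SB

open Finset

theorem exists_scale_nat {w : ℕ} (hw : 1 ≤ w) : ∃ J : ℕ, 1056 * w * (J + 1) ≤ 2 ^ J ∧
    (((J + 1) * 2 ^ J : ℕ) : ℝ) ≤ 3000000 * w * Real.log (w + 1) ^ 2 := by
  classical
  have hex : ∃ J : ℕ, 1056 * w * (J + 1) ≤ 2 ^ J := by
    refine ⟨2112 * w + 2112 * w, ?_⟩
    have h : 2112 * w + 1 ≤ 2 ^ (2112 * w) := Nat.lt_two_pow_self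
    rw [pow_add]
    refine le_trans ?_ (Nat.mul_le_mul h h)
    nlinarith
  have h1 := Nat.find_spec hex
  refine ⟨Nat.find hex, h1, ?_⟩
  obtain h0 | ⟨j, hj⟩ : Nat.find hex = 0 ∨ ∃ j, Nat.find hex = j + 1 :=
    (Nat.eq_zero_or_eq_succ_pred _).imp id fun h => ⟨_, h⟩
  · rw [h0] at h1; omega
  have h2 := Nat.find_min hex (m := j) (by omega)
  rw [hj]
  have h3 : (2 : ℝ) ^ j ≤ 1056 * w * (j + 1) := by exact_mod_cast (not_le.1 h2).le
  have hw' : (1 : ℝ) ≤ w := by exact_mod_cast hw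
  have hj0 : (0 : ℝ) ≤ j := Nat.cast_nonneg j
  have l2 := Real.log_two_gt_d9
  have l3 := Real.log_two_lt_d9
  have a1 : Real.log 2 ≤ Real.log (w + 1) := Real.log_le_log (by norm_num) (by linarith)
  have a2 : (2 : ℝ) ^ j ≤ 2 ^ 13 * ((w + 1) * ((j + 1) / 4)) := by nlinarith
  have a3 := Real.log_le_log (by positivity) a2
  rw [Real.log_mul (by positivity) (by positivity), Real.log_mul (by positivity) (by positivity),
    Real.log_pow, Real.log_pow] at a3
  have a4 := Real.log_le_sub_one_of_pos (x := ((j : ℝ) + 1) / 4) (by positivity)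
  have a5 := mul_le_mul_of_nonneg_left l2.le hj0
  have a6 : (j : ℝ) + 2 ≤ 36 * Real.log (w + 1) := by
    push_cast at a3
    linarith
  have a7 : ((j : ℝ) + 2) ^ 2 ≤ (36 * Real.log (w + 1)) ^ 2 :=
    pow_le_pow_left₀ (by positivity) a6 2
  have a8 := mul_le_mul_of_nonneg_left h3 (by positivity : (0 : ℝ) ≤ j + 2)
  have a9 := mul_le_mul_of_nonneg_left a7 (by positivity : (0 : ℝ) ≤ w)
  have a10 : (0 : ℝ) ≤ w * (j + 2) := by positivity
  have a11 : (0 : ℝ) ≤ w * Real.log (w + 1) ^ 2 := by positivity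
  push_cast
  rw [pow_succ]
  nlinarith

theorem kernel : Kernel := by
  have e3 := Real.exp_pos 3
  refine ⟨3000000 + 64 * Real.exp 3, by linarith, fun w hw => ?_⟩
  obtain ⟨J, hJ, hD⟩ := exists_scale_nat hw
  obtain ⟨ψ, h0, h1, h2⟩ := KW.ana hw hJ
  have hne : ψ 0 ≠ 0 := norm_pos_iff.1 (by linarith)
  refine ⟨_, fun k => ψ k / ψ 0, hD.trans ?_, div_self hne, fun k hk => by simp [h1 k hk],
    fun A _ b e lam hl h => ?_⟩
  · have : (0 : ℝ) ≤ w * Real.log (w + 1) ^ 2 := by positivity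
    nlinarith [mul_nonneg e3.le this]
  have h3 := h2 univ b e lam hl fun r ζ a1 a2 a3 => by
    have := h r ζ a1 a2 a3
    rw [mul_comm (lam ^ 2)] at this
    simp only [mul_comm _ (b _)]
    exact this
  have e1 : ∑ j, b j * (ψ (e j) / ψ 0) = (∑ j, ψ (e j) * b j) / ψ 0 := by
    rw [sum_div]
    exact sum_congr rfl fun j _ => by ring
  rw [e1, norm_div]
  refine (div_le_self (norm_nonneg _) h0).trans (h3.trans ?_)
  nlinarith

end Pool.Agent.Lib.MP_ee7726_lc.SB
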