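import Pool.Agent.Lib.MP_ee7726_lc.SB.Defs2
import Pool.Agent.Lib.MP_ee7726_lc.SB.Kernel
import Pool.Agent.Lib.MP_ee7726_lc.KW.Ana2

/-! The sharp kernel lemma in normalised form. -/

namespace Pool.Agent.Lib.MP_ee7726_lc.SB

open Finset

theorem exists_scale_nat2 {w : ℕ} (hw : 1 ≤ w) (N : ℕ) : ∃ J : ℕ, 4224 * w * (J + 1) ≤ 2 ^ J ∧
    N ≤ (J + 1) * 2 ^ J ∧
    (((J + 1) * 2 ^ J : ℕ) : ℝ) ≤ 108000000 * w * Real.log (w + 1) ^ 2 + 4 * N := by
  have hw' : (1 : ℝ) ≤ w := by exact_mod_cast hw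
  induction N with
  | zero =>
    obtain ⟨J, h1, h2⟩ := exists_scale_nat (w := 4 * w) (by omega)
    refine ⟨J, by rwa [← mul_assoc] at h1, Nat.zero_le _, h2.trans ?_⟩
    have a1 : Real.log ((4 * w : ℕ) + 1) ≤ 3 * Real.log (w + 1) := by
      have := Real.log_pow ((w : ℝ) + 1) 3
      push_cast at this ⊢
      rw [← this]
      exact Real.log_le_log (by positivity)
        (by nlinarith [mul_nonneg (sq_nonneg (w : ℝ)) (zero_le_one.trans hw')])
    have a2 := pow_le_pow_left₀ (Real.log_nonneg (le_add_of_nonneg_left (by positivity))) a1 2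
    have a3 := mul_le_mul_of_nonneg_left a2 (zero_le_one.trans hw')
    push_cast at a3 ⊢
    nlinarith
  | succ N ih =>
    obtain ⟨J, h1, h2, h3⟩ := ih
    by_cases h : N + 1 ≤ (J + 1) * 2 ^ J
    · exact ⟨J, h1, h, h3.trans (by push_cast; linarith)⟩
    have h4 : 0 < 2 ^ J := by positivity
    refine ⟨J + 1, ?_, ?_, ?_⟩
    · rw [pow_succ]; nlinarith
    · rw [pow_succ]; nlinarith
    · have h5 : (J + 1 + 1) * 2 ^ (J + 1) ≤ 4 * (N + 1) := by
        rw [pow_succ]; nlinarith [Nat.zero_le (J * 2 ^ J)]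
      have h6 : (((J + 1 + 1) * 2 ^ (J + 1) : ℕ) : ℝ) ≤ (4 * (N + 1) : ℕ) := by exact_mod_cast h5
      refine h6.trans ?_
      push_cast
      exact le_add_of_nonneg_left (by positivity)

theorem kernel2 : Kernel2 := by
  refine ⟨300000000, by norm_num, fun w hw η h0 h1 => ?_⟩
  have hw' : (1 : ℝ) ≤ w := by exact_mod_cast hw
  have hL : 0 ≤ Real.log (1 / η) := Real.log_nonneg (one_le_one_div h0 h1)
  obtain ⟨N, hN⟩ : ∃ N, N = ⌈258 * w * (6 + Real.log (1 / η))⌉₊ := ⟨_, rfl⟩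
  have n0 : 258 * w * (6 + Real.log (1 / η)) ≤ N := hN ▸ Nat.le_ceil _
  have n1 : (N : ℝ) ≤ 258 * w * (6 + Real.log (1 / η)) + 1 :=
    hN ▸ (Nat.ceil_lt_add_one (by positivity)).le
  have n2 : 1 ≤ N := by
    have : (1 : ℝ) ≤ N := by nlinarith
    exact_mod_cast this
  obtain ⟨J, hJ, hNJ, hD⟩ := exists_scale_nat2 hw N
  have x0 : 0 < 1 / (128 * w : ℝ) := by positivity
  have x1 : w * (1 / (128 * w : ℝ)) = 1 / 128 := by field_simp
  have r0 : 0 < rho w := by unfold rho; positivity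
  have t1 : Real.log (rho w) ≤ 1 / (128 * w) := by
    have := Real.log_le_sub_one_of_pos r0
    rwa [rho, add_sub_cancel_left] at this
  have t0 : 1 ≤ 129 * w * Real.log (rho w) := by
    have a1 := Real.one_sub_inv_le_log_of_pos r0
    have a2 : 1 - (rho w)⁻¹ = 1 / (128 * w + 1) := by unfold rho; field_simp; ring
    rw [a2, div_le_iff₀ (by positivity)] at a1
    have a3 : 0 ≤ Real.log (rho w) := Real.log_nonneg (by unfold rho; linarith)
    nlinarith
  have t2 : Real.exp (2 * (Real.log (rho w) / 2)) = rho w := by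
    rw [mul_div_cancel₀ _ two_ne_zero, Real.exp_log r0]
  obtain ⟨χ, c1, c2⟩ := KW.ana2 (τ := Real.log (rho w) / 2) (u := rho w - 1) hw hJ n2 hNJ
    (by linarith) (by nlinarith) (by
      have a1 : rho w - 1 ≤ 3 * (Real.log (rho w) / 2) := by
        rw [rho, add_sub_cancel_left, ← rho, div_le_iff₀ (by positivity)]
        linarith
      have := pow_le_pow_left₀ (by rw [rho, add_sub_cancel_left]; exact x0.le) a1 2
      linarith)
  rw [t2] at c2
  have c3 : 256 * Real.exp (-(N * (Real.log (rho w) / 2))) ≤ η := by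
    have a1 : 6 + Real.log (1 / η) ≤ N * (Real.log (rho w) / 2) := by
      have a2 : 0 ≤ Real.log (rho w) := Real.log_nonneg (by unfold rho; linarith)
      nlinarith [mul_le_mul_of_nonneg_right n0 a2,
        mul_le_mul_of_nonneg_right t0 (by linarith : 0 ≤ 6 + Real.log (1 / η))]
    have a2 := Real.exp_le_exp.2 (neg_le_neg a1)
    rw [neg_add, Real.exp_add, one_div, Real.log_inv, neg_neg, Real.exp_log h0] at a2
    have a3 : 256 * Real.exp (-6) ≤ 1 := by
      have a4 : (2.7 : ℝ) ^ 6 ≤ Real.exp 1 ^ 6 :=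
        pow_le_pow_left₀ (by norm_num) (by linarith [Real.exp_one_gt_d9]) 6
      rw [← Real.exp_nat_mul] at a4
      rw [Real.exp_neg, ← div_eq_mul_inv, div_le_one (Real.exp_pos _)]
      norm_num at a4 ⊢
      linarith
    nlinarith
  have c4 : ‖χ 0‖ ≤ 1 := by
    have := c2 ({()} : Finset Unit) (fun _ => 1) (fun _ => 0) 1 zero_le_one
      fun r ζ a1 a2 _ => by
        have a3 : 1 ≤ 1 / r := one_le_one_div a1 a2.le
        have a4 : 0 ≤ ((rho w - 1) ^ 2 + ‖1 - ζ‖ ^ 2) / (1 - r) :=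
          div_nonneg (by positivity) (by linarith)
        simpa using one_le_pow₀ (by linarith : 1 ≤ 1 / r + ((rho w - 1) ^ 2 + ‖1 - ζ‖ ^ 2) / (1 - r))
    simp only [sum_singleton, mul_one] at this
    linarith
  have c5 : 1 ≤ ‖χ 0 + 2 * Real.pi‖ := by
    have a1 := norm_sub_norm_le (2 * Real.pi : ℂ) (-χ 0)
    rw [norm_neg, sub_neg_eq_add, add_comm, norm_mul, Complex.norm_real, Complex.norm_ofNat,
      Real.norm_of_nonneg Real.pi_pos.le] at a1
    linarith [Real.pi_gt_three]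
  have hne : χ 0 + 2 * Real.pi ≠ 0 := norm_pos_iff.1 (by linarith)
  refine ⟨2 * ((J + 1) * 2 ^ J) + N, fun k => 1 - χ k / (χ 0 + 2 * Real.pi), ?_,
    fun k hk => by beta_reduce; rw [c1 k hk, div_self hne, sub_self], fun A _ b e lam hl h => ?_⟩
  · have l2 := Real.log_two_gt_d9
    have a1 : Real.log 2 ≤ Real.log (w + 1) := Real.log_le_log (by norm_num) (by linarith)
    have a2 : 1 ≤ 3 * Real.log (w + 1) ^ 2 := by nlinarith
    have a3 := mul_le_mul_of_nonneg_left a2 (zero_le_one.trans hw')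
    have a4 : 0 ≤ w * Real.log (1 / η) := by positivity
    rw [Nat.cast_add, Nat.cast_mul]
    push_cast at hD ⊢
    nlinarith
  have h3 := c2 univ b e lam hl fun r ζ a1 a2 a3 => by
    have := h r ζ a1 a2 a3
    rw [mul_comm (lam ^ 2)] at this
    simp only [mul_comm _ (b _)]
    exact this
  have e1 : ∑ j, b j * (1 - (1 - χ (e j) / (χ 0 + 2 * Real.pi))) =
      (∑ j, χ (e j) * b j) / (χ 0 + 2 * Real.pi) := by
    rw [sum_div]
    exact sum_congr rfl fun j _ => by ring
  rw [e1, norm_div]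
  exact (div_le_self (norm_nonneg _) c5).trans (h3.trans (mul_le_mul_of_nonneg_right c3 hl))

end Pool.Agent.Lib.MP_ee7726_lc.SB
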