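import Pool.Agent.Lib.MP_ee7726_lc.SB.Basic

/-! The level-`k` bound for the first satisfied term of a DNF of width `w`. -/

namespace Pool.Agent.Lib.MP_ee7726_lc.SB

open Finset

variable {ι : Type} [Fintype ι] [DecidableEq ι] {κ : Type} [Fintype κ] [LinearOrder κ]
  (I : κ → Finset ι) (a : κ → ι → Bool)

/-- the term `i` is not falsified by the coordinates of `x` outside `S` -/
def Unf (S : Finset ι) (i : κ) (x : ι → Bool) : Prop := ∀ v ∈ I i, v ∉ S → x v = a i v

/-- `i` is the first such term -/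
def Fu (S : Finset ι) (i : κ) (x : ι → Bool) : Prop := Unf I a S i x ∧ ∀ j < i, ¬ Unf I a S j x

open Classical in
/-- indicator of the first satisfied term -/
noncomputable def fst (i : κ) (x : ι → Bool) : ℝ := if Fu I a ∅ i x then 1 else 0

/-- the pair `(S, x)` can be decoded from `y` -/
inductive Dec : (ι → Bool) → Finset ι → (ι → Bool) → Prop
  | base (y : ι → Bool) : Dec y ∅ y
  | step (y : ι → Bool) (i : κ) (B S : Finset ι) (y' x : ι → Bool) : Fu I a ∅ i y → B ⊆ I i →
      B.Nonempty → Disjoint B S → (∀ v, v ∉ B → y' v = y v) → Dec y' S x → Dec y (B ∪ S) x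

variable {I a}

omit [Fintype ι] [Fintype κ] in
lemma Fu.unique {S : Finset ι} {i j : κ} {x : ι → Bool} (hi : Fu I a S i x) (hj : Fu I a S j x) :
    i = j := by
  rcases lt_trichotomy i j with h | h | h
  · exact absurd hi.1 (hj.2 i h)
  · exact h
  · exact absurd hj.1 (hi.2 j h)

omit [Fintype ι] in
lemma exists_Fu {S : Finset ι} {i : κ} {x : ι → Bool} (h : Unf I a S i x) : ∃ j, Fu I a S j x := by
  classical
  obtain ⟨j, hj, hm⟩ := exists_min_image (univ.filter fun j => Unf I a S j x) id ⟨i, by simpa⟩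
  exact ⟨j, by simpa using hj, fun l hl hu => absurd (hm l (by simpa)) (not_le.2 hl)⟩

omit [Fintype ι] [Fintype κ] in
lemma Fu_congr {S : Finset ι} {i : κ} {x y : ι → Bool} (h : ∀ v, v ∉ S → x v = y v) :
    Fu I a S i x ↔ Fu I a S i y := by
  have : ∀ j, Unf I a S j x ↔ Unf I a S j y := fun j =>
    forall₃_congr fun v _ hv => by rw [h v hv]
  simp only [Fu, this]

omit [Fintype ι] [Fintype κ] in
lemma Dec.inv {y x : ι → Bool} {T : Finset ι} (h : Dec I a y T x) : (T = ∅ ∧ x = y) ∨
    ∃ i B S y', Fu I a ∅ i y ∧ B ⊆ I i ∧ B.Nonempty ∧ Disjoint B S ∧ (∀ v, v ∉ B → y' v = y v) ∧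
      Dec I a y' S x ∧ T = B ∪ S := by
  induction h with
  | base => exact Or.inl ⟨rfl, rfl⟩
  | step y i B S y' x h1 h2 h3 h4 h5 h6 => exact Or.inr ⟨i, B, S, y', h1, h2, h3, h4, h5, h6, rfl⟩

omit [Fintype κ] in
lemma Dec.card_le {w : ℕ} (hw : ∀ i, (I i).card ≤ w) (k : ℕ) (y : ι → Bool) :
    (({q : Finset ι × (ι → Bool) | q.1.card = k ∧ Dec I a y q.1 q.2}.ncard : ℕ) : ℝ) ≤
      (4 * w) ^ k := by
  classical
  induction k using Nat.strong_induction_on generalizing y with
  | _ k ih =>
  rcases Nat.eq_zero_or_pos k with rfl | hk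
  · have : {q : Finset ι × (ι → Bool) | q.1.card = 0 ∧ Dec I a y q.1 q.2} ⊆ {(∅, y)} := by
      rintro ⟨S, x⟩ ⟨h1, h2⟩
      rcases Dec.inv h2 with ⟨h3, h4⟩ | ⟨i, B, S', y', -, -, hB, -, -, -, h3⟩
      · exact Prod.ext h3 h4
      · rw [h3, card_eq_zero, union_eq_empty] at h1
        exact absurd h1.1 hB.ne_empty
    have := Set.ncard_le_ncard this
    rw [Set.ncard_singleton] at this
    simpa using this
  by_cases hy : ∃ i, Fu I a ∅ i y
  swap
  · have : {q : Finset ι × (ι → Bool) | q.1.card = k ∧ Dec I a y q.1 q.2} = ∅ := by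
      refine Set.eq_empty_of_forall_notMem ?_
      rintro ⟨S, x⟩ ⟨h1, h2⟩
      rcases Dec.inv h2 with ⟨h3, h4⟩ | ⟨i, B, S', y', hi, -⟩
      · rw [h3, card_empty] at h1; omega
      · exact hy ⟨i, hi⟩
    rw [this]; simp
  obtain ⟨i, hi⟩ := hy
  let A : Finset ι → (ι → Bool) → Finset (Finset ι × (ι → Bool)) := fun B y' =>
    (univ.filter fun q : Finset ι × (ι → Bool) => q.1.card = k - B.card ∧ Dec I a y' q.1 q.2).image
      fun q => (B ∪ q.1, q.2)
  let N : Finset ι → Finset (ι → Bool) := fun B =>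
    Fintype.piFinset fun v => if v ∈ B then univ else {y v}
  let P : Finset (Finset ι) := (I i).powerset.filter fun B => B.Nonempty ∧ B.card ≤ k
  have hsub : {q : Finset ι × (ι → Bool) | q.1.card = k ∧ Dec I a y q.1 q.2} ⊆
      (P.biUnion fun B => (N B).biUnion (A B) : Finset _) := by
    rintro ⟨T, x⟩ ⟨h1, h2⟩
    rcases Dec.inv h2 with ⟨h3, h4⟩ | ⟨j, B, S, y', hj, hB, hne, hd, hag, hD, h3⟩
    · rw [h3, card_empty] at h1; omega
    · obtain rfl := hi.unique hj
      dsimp only at h1 h3 hD
      subst h3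
      rw [card_union_of_disjoint hd] at h1
      simp only [coe_biUnion, Set.mem_iUnion, mem_coe, mem_biUnion]
      refine ⟨B, by simp only [P, mem_filter, mem_powerset]; exact ⟨hB, hne, by omega⟩, y', ?_,
        mem_image.2 ⟨(S, x), by simp only [mem_filter, mem_univ, true_and]; exact ⟨by omega, hD⟩,
          rfl⟩⟩
      simp only [N, Fintype.mem_piFinset]
      intro v
      split_ifs with h
      · exact mem_univ _
      · simp [hag v h]
  have hN : ∀ B, (N B).card = 2 ^ B.card := fun B => by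
    simp only [N, Fintype.card_piFinset, apply_ite card, card_univ, Fintype.card_bool,
      card_singleton]
    rw [prod_ite_mem, univ_inter, prod_const]
  have hA : ∀ B ∈ P, ∀ y', ((A B y').card : ℝ) ≤ (4 * w) ^ (k - B.card) := fun B hB y' => by
    have hB' := (mem_filter.1 hB).2
    have h1 := ih (k - B.card) (by have := hB'.1.card_pos; omega) y'
    refine le_trans ?_ h1
    rw [Nat.cast_le]
    refine card_image_le.trans (le_of_eq ?_)
    rw [← Set.ncard_coe_finset]
    congr 1; ext q; simp
  have h1 := Set.ncard_le_ncard hsub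
  rw [Set.ncard_coe_finset] at h1
  have h2 : ((P.biUnion fun B => (N B).biUnion (A B)).card : ℝ) ≤
      ∑ B ∈ P, 2 ^ B.card * (4 * w : ℝ) ^ (k - B.card) := by
    refine (Nat.cast_le.2 card_biUnion_le).trans ?_
    push_cast
    refine sum_le_sum fun B hB => (Nat.cast_le.2 card_biUnion_le).trans ?_
    push_cast
    refine (sum_le_card_nsmul _ _ _ fun y' _ => hA B hB y').trans ?_
    rw [hN, nsmul_eq_mul]; push_cast; rfl
  refine ((Nat.cast_le.2 h1).trans h2).trans ?_
  rcases Nat.eq_zero_or_pos w with rfl | hw0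
  · have : P = ∅ := by
      refine filter_eq_empty_iff.2 fun B hB h => ?_
      have := card_le_card (mem_powerset.1 hB)
      have := hw i
      have := h.1.card_pos
      omega
    rw [this]; simp
  have hw1 : (0 : ℝ) < w := by exact_mod_cast hw0
  have h3 : ∑ B ∈ P, 2 ^ B.card * (4 * w : ℝ) ^ (k - B.card) =
      (4 * w) ^ k * ∑ B ∈ P, (1 / (2 * w) : ℝ) ^ B.card := by
    rw [mul_sum]
    refine sum_congr rfl fun B hB => ?_
    obtain ⟨n, hn⟩ := Nat.exists_eq_add_of_le (mem_filter.1 hB).2.2
    rw [hn, Nat.add_sub_cancel_left, pow_add, mul_right_comm, ← mul_pow]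
    congr 2
    field_simp; norm_num
  have h4 : ∑ B ∈ P, (1 / (2 * w) : ℝ) ^ B.card + 1 ≤ (1 + 1 / (2 * w)) ^ (I i).card := by
    rw [← prod_const, prod_one_add]
    simp only [prod_const]
    have : (∅ : Finset ι) ∉ P := by simp [P]
    rw [show ∑ B ∈ P, (1 / (2 * w) : ℝ) ^ B.card + 1 =
      ∑ B ∈ insert ∅ P, (1 / (2 * w) : ℝ) ^ B.card by rw [sum_insert this]; simp [add_comm]]
    refine sum_le_sum_of_subset_of_nonneg ?_ fun _ _ _ => by positivity
    exact insert_subset (empty_mem_powerset _) (filter_subset _ _)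
  have h5 : (1 + 1 / (2 * w) : ℝ) ^ (I i).card ≤ 2 := by
    calc (1 + 1 / (2 * w) : ℝ) ^ (I i).card ≤ (1 + 1 / (2 * w)) ^ w :=
          pow_le_pow_right₀ (le_add_of_nonneg_right (by positivity)) (hw i)
      _ ≤ Real.exp (1 / (2 * w)) ^ w := by
          gcongr; rw [add_comm]; exact Real.add_one_le_exp _
      _ = Real.exp (1 / 2) := by rw [← Real.exp_nat_mul]; congr 1; field_simp
      _ ≤ 2 := by
          have h := Real.exp_one_lt_d9
          have h' : Real.exp (1 / 2) * Real.exp (1 / 2) = Real.exp 1 := by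
            rw [← Real.exp_add]; norm_num
          nlinarith [Real.exp_pos (1 / 2)]
  rw [h3]
  exact mul_le_of_le_one_right (by positivity) (by linarith)

variable (I a) in
/-- the query process reads all of `S` -/
def Ev (S : Finset ι) (x : ι → Bool) : Prop := ∃ y, (∀ v, v ∉ S → y v = x v) ∧ Dec I a y S x

omit [Fintype ι] [Fintype κ] in
lemma Ev.step {S : Finset ι} {j : κ} {x : ι → Bool} (hj : Fu I a S j x)
    (hne : (I j ∩ S).Nonempty) (h : Ev I a (S \ (I j ∩ S)) x) : Ev I a S x := by
  obtain ⟨y', hy', hD⟩ := h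
  have hag : ∀ v, v ∉ S → (if v ∈ I j ∩ S then a j v else y' v) = x v := fun v hv => by
    rw [if_neg fun h => hv (mem_inter.1 h).2]
    exact hy' v fun h => hv (mem_sdiff.1 h).1
  refine ⟨fun v => if v ∈ I j ∩ S then a j v else y' v, hag, ?_⟩
  have := Dec.step (I := I) (a := a) (fun v => if v ∈ I j ∩ S then a j v else y' v) j (I j ∩ S)
    (S \ (I j ∩ S)) y' x ⟨fun v hv _ => ?_, fun l hl hu => hj.2 l hl fun v hv hS => ?_⟩
    inter_subset_left hne disjoint_sdiff (fun v hv => by simp only [if_neg hv]) hD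
  · rwa [union_sdiff_of_subset inter_subset_right] at this
  · by_cases hS : v ∈ S
    · simp only [if_pos (mem_inter.2 ⟨hv, hS⟩)]
    · exact (hag v hS).trans (hj.1 v hv hS)
  · rw [← hag v hS]; exact hu v hv (notMem_empty v)

lemma sum_zero_of_indep {S : Finset ι} (hS : S.Nonempty) (φ : (ι → Bool) → ℝ)
    (hφ : ∀ x y : ι → Bool, (∀ v, v ∉ S → x v = y v) → φ x = φ y) :
    ∑ x, φ x * chi S x = 0 := by
  obtain ⟨v, hv⟩ := hS
  let e : (ι → Bool) → ι → Bool := fun x => Function.update x v (!x v)
  have he : Function.Involutive e := fun x => by simp [e]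
  have h1 := he.bijective.sum_comp fun x => φ x * chi S x
  have h2 : ∀ x, φ (e x) * chi S (e x) = -(φ x * chi S x) := fun x => by
    rw [hφ (e x) x fun u hu => Function.update_of_ne (fun h : u = v => hu (h ▸ hv)) _ _, chi, chi,
      ← mul_prod_erase S _ hv, ← mul_prod_erase S _ hv,
      prod_congr rfl fun u hu => by rw [show e x u = x u from
        Function.update_of_ne (ne_of_mem_erase hu) _ _]]
    simp only [e, Function.update_self]
    cases x v <;> simp [sg]
  simp only [h2, sum_neg_distrib] at h1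
  linarith

omit [Fintype ι] in
lemma sum_fst_le (x : ι → Bool) : ∑ i, fst I a i x ≤ 1 := by
  classical
  by_cases h : ∃ i, Fu I a ∅ i x
  · obtain ⟨i, hi⟩ := h
    rw [sum_eq_single i (fun j _ hj => by rw [fst, if_neg fun h => hj (h.unique hi)]) (by simp),
      fst, if_pos hi]
  · rw [sum_eq_zero fun i _ => by rw [fst, if_neg fun hi => h ⟨i, hi⟩]]; exact zero_le_one

omit [Fintype ι] [Fintype κ] in
lemma fst_nonneg (i : κ) (x : ι → Bool) : 0 ≤ fst I a i x := by
  unfold fst; split_ifs <;> simp

open Classical in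
lemma coeff_le (S : Finset ι) (φ : (ι → Bool) → ℝ)
    (hφ : ∀ x y : ι → Bool, (∀ v, v ∉ S → x v = y v) → φ x = φ y) :
    ∑ i, |∑ x, φ x * (fst I a i x * chi S x)| ≤ ∑ x, if Ev I a S x then |φ x| else 0 := by
  induction S using Finset.strongInduction generalizing φ with
  | H S ih =>
  rcases S.eq_empty_or_nonempty with rfl | hS
  · refine (sum_le_sum fun i _ => abs_sum_le_sum_abs _ _).trans ?_
    rw [sum_comm]
    refine sum_le_sum fun x _ => ?_
    rw [if_pos ⟨x, fun _ _ => rfl, Dec.base x⟩]
    simp only [chi_empty, mul_one, abs_mul, abs_of_nonneg (fst_nonneg _ _), ← mul_sum]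
    exact mul_le_of_le_one_right (abs_nonneg _) (sum_fst_le x)
  let φ' : κ → (ι → Bool) → ℝ := fun j x => if Fu I a S j x then φ x else 0
  have hφ' : ∀ j (x y : ι → Bool), (∀ v, v ∉ S → x v = y v) → φ' j x = φ' j y := fun j x y h => by
    simp only [φ', Fu_congr h, hφ x y h]
  have e1 : ∀ i x, φ x * (fst I a i x * chi S x) = ∑ j, φ' j x * (fst I a i x * chi S x) := by
    intro i x
    by_cases h : Fu I a ∅ i x
    · obtain ⟨j, hj⟩ := exists_Fu (S := S) fun v hv _ => h.1 v hv (notMem_empty v)
      rw [sum_eq_single j (fun l _ hl => by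
        simp only [φ', if_neg fun h : Fu I a S l x => hl (h.unique hj), zero_mul]) (by simp)]
      simp only [φ', if_pos hj]
    · simp [fst, h]
  have e2 : ∀ j, ∑ i, |∑ x, φ' j x * (fst I a i x * chi S x)| ≤
      ∑ x, if Ev I a S x then |φ' j x| else 0 := by
    intro j
    rcases (I j ∩ S).eq_empty_or_nonempty with h0 | hne
    · refine le_trans (le_of_eq (sum_eq_zero fun i _ => ?_))
        (sum_nonneg fun x _ => by split_ifs <;> simp)
      have hf : ∀ x, Fu I a S j x → Fu I a ∅ j x := fun x hx =>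
        ⟨fun v hv _ => hx.1 v hv fun h => notMem_empty v (h0 ▸ mem_inter.2 ⟨hv, h⟩),
          fun l hl hu => hx.2 l hl fun v hv _ => hu v hv (notMem_empty v)⟩
      have e3 : ∀ x, φ' j x * fst I a i x = if i = j then φ' j x else 0 := fun x => by
        by_cases hx : Fu I a S j x
        · by_cases hij : i = j
          · simp [hij, fst, hf x hx]
          · rw [if_neg hij, fst, if_neg fun h => hij (h.unique (hf x hx)), mul_zero]
        · simp [φ', hx]
      simp only [← mul_assoc, e3]
      rw [abs_eq_zero]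
      exact sum_zero_of_indep hS _ fun x y h => by rw [hφ' j x y h]
    · have hss : S \ (I j ∩ S) ⊂ S := sdiff_ssubset inter_subset_right hne
      have := ih _ hss (fun x => φ' j x * chi (I j ∩ S) x) fun x y h => by
        rw [hφ' j x y fun v hv => h v fun h' => hv (mem_sdiff.1 h').1, chi, chi,
          prod_congr rfl fun v hv => by rw [h v fun h' => (mem_sdiff.1 h').2 hv]]
      have e4 : ∀ x, chi S x = chi (I j ∩ S) x * chi (S \ (I j ∩ S)) x := fun x => by
        rw [chi, chi, chi, mul_comm, prod_sdiff inter_subset_right]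
      refine le_trans (le_of_eq (sum_congr rfl fun i _ => ?_))
        (this.trans (sum_le_sum fun x _ => ?_))
      · congr 1
        exact sum_congr rfl fun x _ => by rw [e4]; ring
      · rw [abs_mul, abs_chi, mul_one]
        by_cases hx : Fu I a S j x
        · split_ifs with h1 h2
          · exact le_rfl
          · exact absurd (Ev.step hx hne h1) h2
          · exact abs_nonneg _
          · exact le_rfl
        · simp [φ', hx]
  calc ∑ i, |∑ x, φ x * (fst I a i x * chi S x)|
      ≤ ∑ i, ∑ j, |∑ x, φ' j x * (fst I a i x * chi S x)| := sum_le_sum fun i _ => by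
        simp only [e1]
        rw [sum_comm]
        exact abs_sum_le_sum_abs _ _
    _ ≤ ∑ j, ∑ x, if Ev I a S x then |φ' j x| else 0 := by
        rw [sum_comm]; exact sum_le_sum fun j _ => e2 j
    _ ≤ _ := by
        rw [sum_comm]
        refine sum_le_sum fun x _ => ?_
        split_ifs
        · by_cases h : ∃ j, Fu I a S j x
          · obtain ⟨j, hj⟩ := h
            rw [sum_eq_single j (fun l _ hl => by
              simp only [φ', if_neg fun h : Fu I a S l x => hl (h.unique hj), abs_zero]) (by simp)]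
            simp only [φ', if_pos hj, le_refl]
          · rw [sum_eq_zero fun j _ => by simp only [φ', if_neg fun hj => h ⟨j, hj⟩, abs_zero]]
            exact abs_nonneg _
        · simp

/-- the level-`k` bound -/
theorem level_le {w : ℕ} (hw : ∀ i, (I i).card ≤ w) (k : ℕ) :
    ∑ S ∈ powersetCard k univ, ∑ i, |hat (fst I a i) S| ≤ (4 * w) ^ k := by
  classical
  have h1 : ∀ S : Finset ι, ∑ i, |hat (fst I a i) S| ≤
      ∑ x, ∑ y, if Dec I a y S x then unif y else 0 := fun S => by
    refine (coeff_le S unif fun _ _ _ => rfl).trans (sum_le_sum fun x _ => ?_)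
    split_ifs with h
    · obtain ⟨y, -, hy⟩ := h
      refine le_trans ?_ (single_le_sum (fun y _ => ?_) (mem_univ y))
      · rw [if_pos hy, abs_of_pos (unif_pos x)]; rfl
      · split_ifs
        · exact (unif_pos _).le
        · exact le_rfl
    · refine sum_nonneg fun y _ => ?_
      split_ifs
      · exact (unif_pos _).le
      · exact le_rfl
  refine (sum_le_sum fun S _ => h1 S).trans ?_
  rw [sum_congr rfl fun S _ => sum_comm, sum_comm, ← one_mul ((4 * w : ℝ) ^ k),
    ← (biased_unif (ι := ι) 0).total, sum_mul]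
  refine sum_le_sum fun y _ => ?_
  rw [← sum_product', ← sum_filter, sum_const, nsmul_eq_mul, mul_comm]
  refine mul_le_mul_of_nonneg_left (le_trans (le_of_eq ?_) (Dec.card_le (a := a) hw k y))
    (unif_pos y).le
  rw [← Set.ncard_coe_finset]
  congr 2; ext q; simp

end Pool.Agent.Lib.MP_ee7726_lc.SB
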