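import Pool.Agent.Lib.MP_ee7726_lc.SB.Basic

/-! Truncation of wide terms. -/

namespace Pool.Agent.Lib.MP_ee7726_lc.SB

open Finset

variable {ι : Type} [Fintype ι] [DecidableEq ι]

theorem pr_mono {p : (ι → Bool) → ℝ} (hp : ∀ x, 0 ≤ p x) {E F : Set (ι → Bool)} (h : E ⊆ F) :
    pr p E ≤ pr p F := by
  unfold pr
  refine sum_le_sum fun x _ => ?_
  by_cases h1 : x ∈ E
  · rw [if_pos h1, if_pos (h h1)]
  · rw [if_neg h1]
    split_ifs
    exacts [hp x, le_rfl]

theorem pr_nonneg' {p : (ι → Bool) → ℝ} (hp : ∀ x, 0 ≤ p x) (E : Set (ι → Bool)) : 0 ≤ pr p E :=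
  sum_nonneg fun x _ => by
    split_ifs
    exacts [hp x, le_rfl]

theorem pr_subcube (I : Finset ι) (a : ι → Bool) :
    ∑ x : ι → Bool, (if ∀ v ∈ I, x v = a v then unif x else 0) = (1 / 2) ^ I.card := by
  have e : ∀ x : ι → Bool, (if ∀ v ∈ I, x v = a v then unif x else 0) =
      ∏ v, if v ∈ I then (if x v = a v then (1 / 2 : ℝ) else 0) else 1 / 2 := fun x => by
    split_ifs with h
    · rw [prod_congr rfl (g := fun _ => (1 / 2 : ℝ)) fun v _ => by
        split_ifs with h1 h2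
        exacts [rfl, absurd (h v h1) h2, rfl]]
      simp [unif]
    · push Not at h
      obtain ⟨v, h1, h2⟩ := h
      exact (prod_eq_zero (mem_univ v) (by rw [if_pos h1, if_neg h2])).symm
  simp only [e]
  rw [sum_prod_cube fun v b => if v ∈ I then (if b = a v then (1 / 2 : ℝ) else 0) else 1 / 2,
    prod_congr rfl (g := fun v => if v ∈ I then (1 / 2 : ℝ) else 1) fun v _ => by
      by_cases h : v ∈ I <;> cases a v <;> simp [h] <;> norm_num,
    prod_ite_mem, univ_inter, prod_const]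

theorem trunc {p : (ι → Bool) → ℝ} (hp : ∀ x, 0 ≤ p x) {w : ℕ} {ε : ℝ} (h0 : 0 ≤ ε) (h1 : ε ≤ 1)
    (h : ∀ E, Width w E → (1 - ε) * pr unif E ≤ pr p E ∧ pr p E ≤ (1 + ε) * pr unif E)
    (T : Finset (Finset ι × (ι → Bool))) :
    |pr p {x | ∃ t ∈ T, ∀ v ∈ t.1, x v = t.2 v} - pr unif {x | ∃ t ∈ T, ∀ v ∈ t.1, x v = t.2 v}| ≤
      ε * pr unif {x | ∃ t ∈ T, ∀ v ∈ t.1, x v = t.2 v} +
        2 * (T.filter fun t => w < t.1.card).card / 2 ^ w := by
  classical
  have hc : ∀ I : Finset ι, ∃ K ⊆ I, K.card = min w I.card := fun I =>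
    exists_subset_card_eq (min_le_right _ _)
  choose c c1 c2 using hc
  set E : Set (ι → Bool) := {x | ∃ t ∈ T, ∀ v ∈ t.1, x v = t.2 v}
  set L : Set (ι → Bool) := {x | ∃ t ∈ T, t.1.card ≤ w ∧ ∀ v ∈ t.1, x v = t.2 v}
  set U : Set (ι → Bool) := {x | ∃ t ∈ T, ∀ v ∈ c t.1, x v = t.2 v}
  have wL : Width w L := fun x ⟨t, ht, a1, a2⟩ =>
    ⟨t.1, a1, fun y hy => ⟨t, ht, a1, fun v hv => (hy v hv).trans (a2 v hv)⟩⟩
  have wU : Width w U := fun x ⟨t, ht, a2⟩ =>
    ⟨c t.1, (c2 _).trans_le (min_le_left _ _), fun y hy =>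
      ⟨t, ht, fun v hv => (hy v hv).trans (a2 v hv)⟩⟩
  have LE : L ⊆ E := fun x ⟨t, ht, _, a2⟩ => ⟨t, ht, a2⟩
  have EU : E ⊆ U := fun x ⟨t, ht, a2⟩ => ⟨t, ht, fun v hv => a2 v (c1 _ hv)⟩
  have hu : ∀ x : ι → Bool, 0 ≤ unif x := fun x => (unif_pos x).le
  have key : pr unif U ≤ pr unif L + (T.filter fun t => w < t.1.card).card / 2 ^ w := by
    have e : ((T.filter fun t => w < t.1.card).card / 2 ^ w : ℝ) =
        ∑ x : ι → Bool, ∑ t ∈ T.filter fun t => w < t.1.card,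
          if ∀ v ∈ c t.1, x v = t.2 v then unif x else 0 := by
      rw [sum_comm, sum_congr rfl (g := fun _ => (1 / 2 : ℝ) ^ w) fun t ht => by
        rw [pr_subcube, c2, min_eq_left (mem_filter.1 ht).2.le], sum_const, nsmul_eq_mul,
        one_div_pow, mul_one_div]
    rw [e, pr, pr, ← sum_add_distrib]
    refine sum_le_sum fun x _ => ?_
    have n1 : ∀ t ∈ T.filter fun t => w < t.1.card,
        0 ≤ if ∀ v ∈ c t.1, x v = t.2 v then unif x else 0 := fun t _ => by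
      split_ifs
      exacts [hu x, le_rfl]
    have n2 := sum_nonneg n1
    split_ifs with a1 a2 a2
    · linarith
    · obtain ⟨t, ht, a3⟩ := a1
      have a4 : w < t.1.card := not_le.1 fun a5 => a2 ⟨t, ht, a5, fun v hv => a3 v (by
        rwa [eq_of_subset_of_card_le (c1 t.1) (by rw [c2, min_eq_right a5])])⟩
      have a5 := single_le_sum n1 (mem_filter.2 ⟨ht, a4⟩)
      rw [if_pos a3] at a5
      linarith
    · linarith [hu x]
    · linarith
  have b1 := (h L wL).1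
  have b2 := (h U wU).2
  have b3 := pr_mono hp LE
  have b4 := pr_mono hp EU
  have b5 := pr_mono hu LE
  have b6 := pr_mono hu EU
  have b7 : (0 : ℝ) ≤ (T.filter fun t => w < t.1.card).card / 2 ^ w := by positivity
  rw [mul_div_assoc, abs_le]
  generalize ((T.filter fun t => w < t.1.card).card / 2 ^ w : ℝ) = m at *
  constructor <;> nlinarith

end Pool.Agent.Lib.MP_ee7726_lc.SB
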