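import Pool.Agent.Lib.MP_ee7726_lc.SB.Defs2
import Pool.Agent.Lib.MP_ee7726_lc.SB.Growth

/-! A second moment bound for the inverse noise operator applied to the first satisfied term. -/

namespace Pool.Agent.Lib.MP_ee7726_lc.SB

open Finset

variable {ι : Type} [Fintype ι] [DecidableEq ι] {κ : Type} [Fintype κ] [LinearOrder κ]
  {I : κ → Finset ι} {a : κ → ι → Bool}

/-- flip the coordinates in `V` -/
def fl (V : Finset ι) (x : ι → Bool) : ι → Bool := fun v => if v ∈ V then !x v else x v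

omit [Fintype ι] in
lemma fl_invol (V : Finset ι) : Function.Involutive (fl V) := fun x => by
  funext v; unfold fl; split_ifs <;> simp

lemma sum_fl (V : Finset ι) (F : (ι → Bool) → ℝ) : ∑ x, F (fl V x) = ∑ x, F x :=
  (fl_invol V).bijective.sum_comp F

omit [Fintype ι] in
lemma chi_fl (S : Finset ι) (v : ι) (x : ι → Bool) :
    chi S (fl {v} x) = (if v ∈ S then -1 else 1) * chi S x := by
  rw [chi, chi, ← prod_ite_eq' S v fun _ => (-1 : ℝ), ← prod_mul_distrib]
  refine prod_congr rfl fun u _ => ?_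
  by_cases h : u = v
  · subst h; cases hx : x u <;> simp [fl, sg, hx]
  · simp [fl, h]

/-- the multiplier `s` on the coordinates of `R` -/
noncomputable def U (g : (ι → Bool) → ℝ) (s : ι → ℝ) (R : Finset ι) (x : ι → Bool) : ℝ :=
  ∑ S : Finset ι, (∏ v ∈ S, if v ∈ R then s v else 1) * hat g S * chi S x

lemma U_empty (g : (ι → Bool) → ℝ) (s : ι → ℝ) (x : ι → Bool) : U g s ∅ x = g x := by
  have := ev_hat g x
  rw [ev] at this
  simp only [U, notMem_empty, if_false, prod_const_one, one_mul]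
  exact_mod_cast this

lemma U_insert (g : (ι → Bool) → ℝ) (s : ι → ℝ) {R : Finset ι} {v : ι} (hv : v ∉ R)
    (x : ι → Bool) : U g s (insert v R) x =
      (1 + s v) / 2 * U g s R x + (1 - s v) / 2 * U g s R (fl {v} x) := by
  simp only [U, mul_sum, ← sum_add_distrib, chi_fl]
  refine sum_congr rfl fun S _ => ?_
  have : (∏ u ∈ S, if u ∈ insert v R then s u else 1) =
      (if v ∈ S then s v else 1) * ∏ u ∈ S, if u ∈ R then s u else 1 := by
    rw [← prod_ite_eq' S v s, ← prod_mul_distrib]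
    refine prod_congr rfl fun u _ => ?_
    by_cases h : u = v
    · subst h; simp [hv]
    · simp [h]
  rw [this]
  split_ifs <;> ring

lemma U_const {g : (ι → Bool) → ℝ} (s : ι → ℝ) {R : Finset ι} {x₀ : ι → Bool} {c : ℝ}
    (h : ∀ x, (∀ v, v ∉ R → x v = x₀ v) → g x = c) (R' : Finset ι) (hR : R' ⊆ R) :
    ∀ x, (∀ v, v ∉ R → x v = x₀ v) → U g s R' x = c := by
  induction R' using Finset.induction_on with
  | empty => exact fun x hx => by rw [U_empty, h x hx]
  | insert v R' hv ih =>
    intro x hx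
    have h1 := (insert_subset_iff.1 hR).2
    rw [U_insert g s hv, ih h1 x hx, ih h1 _ fun u hu => ?_]
    · ring
    · have : u ≠ v := fun e => hu (e ▸ (insert_subset_iff.1 hR).1)
      simp [fl, this, hx u hu]

variable (I a) in
/-- the sum of the absolute values over all terms -/
noncomputable def BB (s : κ → ι → ℝ) (R : Finset ι) (x : ι → Bool) : ℝ :=
  ∑ i, |U (fst I a i) (s i) R x|

lemma BB_nonneg (s : κ → ι → ℝ) (R : Finset ι) (x : ι → Bool) : 0 ≤ BB I a s R x :=
  sum_nonneg fun _ _ => abs_nonneg _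

lemma BB_insert {s : κ → ι → ℝ} (hs : ∀ i v, |s i v - 1| ≤ 1) {R : Finset ι} {v : ι} (hv : v ∉ R)
    (x : ι → Bool) :
    BB I a s (insert v R) x ≤ 3 / 2 * BB I a s R x + 1 / 2 * BB I a s R (fl {v} x) := by
  simp only [BB, mul_sum, ← sum_add_distrib]
  refine sum_le_sum fun i _ => ?_
  have h := abs_le.1 (hs i v)
  rw [U_insert _ _ hv]
  refine (abs_add_le _ _).trans (add_le_add ?_ ?_) <;> rw [abs_mul] <;>
    refine mul_le_mul_of_nonneg_right (abs_le.2 ⟨?_, ?_⟩) (abs_nonneg _) <;> linarith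

lemma sq_block {s : κ → ι → ℝ} (hs : ∀ i v, |s i v - 1| ≤ 1) (φ : (ι → Bool) → ℝ)
    (h0 : ∀ x, 0 ≤ φ x) (R V : Finset ι) (hd : Disjoint V R)
    (hφ : ∀ v ∈ V, ∀ x, φ (fl {v} x) = φ x) :
    ∑ x, φ x * BB I a s (V ∪ R) x ^ 2 ≤ 4 ^ V.card * ∑ x, φ x * BB I a s R x ^ 2 := by
  induction V using Finset.induction_on with
  | empty => simp
  | insert v V hv ih =>
    rw [disjoint_insert_left] at hd
    have hv' : v ∉ V ∪ R := fun h => (mem_union.1 h).elim hv hd.1
    have h1 := ih hd.2 fun u hu => hφ u (mem_insert_of_mem hu)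
    have h2 := sum_fl {v} fun x => φ x * BB I a s (V ∪ R) x ^ 2
    simp only [hφ v (mem_insert_self _ _)] at h2
    have h3 : ∑ x, φ x * BB I a s (insert v (V ∪ R)) x ^ 2 ≤
        ∑ x, (3 * (φ x * BB I a s (V ∪ R) x ^ 2) + φ x * BB I a s (V ∪ R) (fl {v} x) ^ 2) :=
      sum_le_sum fun x _ => by
        have h4 := pow_le_pow_left₀ (BB_nonneg s _ x) (BB_insert (I := I) (a := a) hs hv' x) 2
        have h5 : BB I a s (insert v (V ∪ R)) x ^ 2 ≤
            3 * BB I a s (V ∪ R) x ^ 2 + BB I a s (V ∪ R) (fl {v} x) ^ 2 := by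
          nlinarith [sq_nonneg (BB I a s (V ∪ R) x - BB I a s (V ∪ R) (fl {v} x))]
        nlinarith [mul_le_mul_of_nonneg_left h5 (h0 x)]
    rw [sum_add_distrib, ← mul_sum, h2] at h3
    rw [insert_union, card_insert_of_notMem hv, pow_succ]
    linarith

open Classical in
variable (I a) in
/-- the weight of the path which reads `L` and leaves `R` free -/
noncomputable def wt (R L : Finset ι) (x : ι → Bool) : ℝ :=
  if Ev (fun i => I i \ R) a L x ∧ (L = ∅ → ∃ i, Unf I a R i x) then 4 ^ L.card else 0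

omit [Fintype ι] in
lemma wt_nonneg (R L : Finset ι) (x : ι → Bool) : 0 ≤ wt I a R L x := by
  unfold wt; split_ifs <;> positivity

omit [Fintype ι] [Fintype κ] [LinearOrder κ] in
lemma Unf_sdiff (R L : Finset ι) (i : κ) (x : ι → Bool) :
    Unf (fun i => I i \ R) a L i x ↔ Unf I a (L ∪ R) i x := by
  simp only [Unf, mem_sdiff, mem_union, not_or]
  exact ⟨fun h v h1 h2 => h v ⟨h1, h2.2⟩ h2.1, fun h v h1 h2 => h v h1.1 ⟨h2, h1.2⟩⟩

lemma sum_inj_le {α β : Type} [DecidableEq β] (s : Finset α) (t : Finset β) (e : α → β)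
    (he : Set.InjOn e s) (hm : ∀ x ∈ s, e x ∈ t) (F : β → ℝ) (hF : ∀ y, 0 ≤ F y) :
    ∑ x ∈ s, F (e x) ≤ ∑ y ∈ t, F y := by
  rw [← sum_image he]
  exact sum_le_sum_of_subset_of_nonneg (image_subset_iff.2 hm) fun _ _ _ => hF _

omit [Fintype ι] in
lemma wt_step {R : Finset ι} {j : κ} {x : ι → Bool} (hj : Fu I a R j x)
    (hne : (I j ∩ R).Nonempty) :
    4 ^ (I j ∩ R).card * ∑ L ∈ (R \ (I j ∩ R)).powerset, wt I a ((R \ (I j ∩ R)) \ L) L x ≤
      ∑ L ∈ R.powerset, wt I a (R \ L) L x := by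
  refine le_trans ?_ (sum_inj_le (R \ (I j ∩ R)).powerset _ (fun L => I j ∩ R ∪ L) ?_
    (fun L hL => ?_) _ fun L => wt_nonneg _ _ _)
  · rw [mul_sum]
    refine sum_le_sum fun L hL => ?_
    have hL' := mem_powerset.1 hL
    have hd : Disjoint (I j ∩ R) L := disjoint_sdiff.mono_right hL'
    have e1 : (I j ∩ R ∪ L) ∪ R \ (I j ∩ R ∪ L) = R :=
      union_sdiff_of_subset (union_subset inter_subset_right (hL'.trans sdiff_subset))
    have e2 : I j \ (R \ (I j ∩ R ∪ L)) ∩ (I j ∩ R ∪ L) = I j ∩ R := by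
      ext v
      have := @hL' v
      simp only [mem_inter, mem_sdiff, mem_union] at this ⊢
      tauto
    rw [sdiff_sdiff_left, sup_eq_union, wt]
    split_ifs with h
    · rw [wt, if_pos, card_union_of_disjoint hd, pow_add]
      refine ⟨Ev.step (j := j) ?_ (by rwa [e2]) ?_, fun h0 => ?_⟩
      · simpa only [Fu, Unf_sdiff, e1] using hj
      · rw [e2, union_sdiff_cancel_left hd]; exact h.1
      · exact absurd (union_eq_empty.1 h0).1 hne.ne_empty
    · rw [mul_zero]; exact wt_nonneg _ _ _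
  · intro L hL L' hL' h
    have h1 : Disjoint (I j ∩ R) L := disjoint_sdiff.mono_right (mem_powerset.1 hL)
    have h2 : Disjoint (I j ∩ R) L' := disjoint_sdiff.mono_right (mem_powerset.1 hL')
    rw [← union_sdiff_cancel_left h1, ← union_sdiff_cancel_left h2]
    exact congrArg (· \ (I j ∩ R)) h
  · exact mem_powerset.2 (union_subset inter_subset_right ((mem_powerset.1 hL).trans sdiff_subset))

lemma tree {s : κ → ι → ℝ} (hs : ∀ i v, |s i v - 1| ≤ 1) (R : Finset ι) (φ : (ι → Bool) → ℝ)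
    (h0 : ∀ x, 0 ≤ φ x) (hφ : ∀ x y : ι → Bool, (∀ v, v ∉ R → x v = y v) → φ x = φ y) :
    ∑ x, φ x * BB I a s R x ^ 2 ≤ ∑ x, φ x * ∑ L ∈ R.powerset, wt I a (R \ L) L x := by
  classical
  induction R using Finset.strongInduction generalizing φ with
  | H R ih =>
  let φ' : κ → (ι → Bool) → ℝ := fun j x => if Fu I a R j x then φ x else 0
  have h0' : ∀ j x, 0 ≤ φ' j x := fun j x => by simp only [φ']; split_ifs <;> simp [h0]
  have hφ' : ∀ j (x y : ι → Bool), (∀ v, v ∉ R → x v = y v) → φ' j x = φ' j y := fun j x y h => by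
    simp only [φ', Fu_congr h, hφ x y h]
  have hW : ∀ x, 0 ≤ ∑ L ∈ R.powerset, wt I a (R \ L) L x := fun x =>
    sum_nonneg fun _ _ => wt_nonneg _ _ _
  have e0 : ∀ x j, Fu I a R j x → ∑ l, φ' l x = φ x := fun x j hj => by
    rw [sum_eq_single j (fun l _ hl => if_neg fun h : Fu I a R l x => hl (h.unique hj)) (by simp)]
    exact if_pos hj
  have e1 : ∀ x, φ x * BB I a s R x ^ 2 = ∑ j, φ' j x * BB I a s R x ^ 2 := fun x => by
    by_cases h : ∃ j, Fu I a R j x
    · obtain ⟨j, hj⟩ := h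
      rw [← sum_mul, e0 x j hj]
    · have : BB I a s R x = 0 := sum_eq_zero fun i _ => by
        rw [U_const (x₀ := x) (c := 0) _ (fun y hy => ?_) R Subset.rfl x fun _ _ => rfl, abs_zero]
        refine if_neg fun hi => h (exists_Fu (i := i) fun v hv hv' => ?_)
        rw [← hy v hv']; exact hi.1 v hv (notMem_empty v)
      simp [this]
  have e2 : ∀ j, ∑ x, φ' j x * BB I a s R x ^ 2 ≤
      ∑ x, φ' j x * ∑ L ∈ R.powerset, wt I a (R \ L) L x := fun j => by
    rcases (I j ∩ R).eq_empty_or_nonempty with hV | hne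
    · refine sum_le_sum fun x _ => ?_
      by_cases hx : Fu I a R j x
      swap
      · simp [φ', hx]
      refine mul_le_mul_of_nonneg_left ?_ (h0' j x)
      have hf : ∀ y, Fu I a R j y → Fu I a ∅ j y := fun y hy =>
        ⟨fun v hv _ => hy.1 v hv fun h => notMem_empty v (hV ▸ mem_inter.2 ⟨hv, h⟩),
          fun l hl hu => hy.2 l hl fun v hv _ => hu v hv (notMem_empty v)⟩
      have hg : ∀ i y, Fu I a R j y → fst I a i y = if i = j then 1 else 0 := fun i y hy => by
        by_cases hij : i = j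
        · simp [hij, fst, hf y hy]
        · rw [if_neg hij, fst, if_neg fun h => hij (h.unique (hf y hy))]
      have hB : BB I a s R x = 1 := by
        rw [BB, sum_congr rfl fun i _ => by
          rw [U_const _ (fun y hy => hg i y ((Fu_congr hy).2 hx)) R Subset.rfl x fun _ _ => rfl]]
        simp [apply_ite abs]
      refine le_trans (le_of_eq ?_) (single_le_sum (f := fun L => wt I a (R \ L) L x)
        (fun _ _ => wt_nonneg _ _ _) (empty_mem_powerset R))
      rw [hB, wt, if_pos ⟨⟨x, fun _ _ => rfl, Dec.base x⟩, fun _ => ⟨j, by simpa using hx.1⟩⟩]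
      simp
    · have h1 := sq_block (I := I) (a := a) hs (φ' j) (h0' j) (R \ (I j ∩ R)) (I j ∩ R)
        disjoint_sdiff fun v hv x => hφ' j _ _ fun u hu => by
          have : u ≠ v := fun e => hu (e ▸ (mem_inter.1 hv).2)
          simp [fl, this]
      rw [union_sdiff_of_subset inter_subset_right] at h1
      have h2 := ih _ (sdiff_ssubset inter_subset_right hne) (φ' j) (h0' j) fun x y h =>
        hφ' j x y fun v hv => h v fun h' => hv (mem_sdiff.1 h').1
      refine h1.trans ((mul_le_mul_of_nonneg_left h2 (by positivity)).trans ?_)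
      rw [mul_sum]
      refine sum_le_sum fun x _ => ?_
      by_cases hx : Fu I a R j x
      · rw [mul_left_comm]
        exact mul_le_mul_of_nonneg_left (wt_step hx hne) (h0' j x)
      · simp [φ', hx]
  simp only [e1]
  rw [sum_comm]
  refine (sum_le_sum fun j _ => e2 j).trans ?_
  rw [sum_comm]
  refine sum_le_sum fun x _ => ?_
  rw [← sum_mul]
  refine mul_le_mul_of_nonneg_right ?_ (hW x)
  by_cases h : ∃ j, Fu I a R j x
  · obtain ⟨j, hj⟩ := h
    exact (e0 x j hj).le
  · rw [sum_eq_zero fun j _ => if_neg fun hj => h ⟨j, hj⟩]; exact h0 x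

lemma sum_split_le (F : Finset ι → Finset ι → ℝ) (hF : ∀ R L, 0 ≤ F R L) :
    ∑ R : Finset ι, ∑ L ∈ R.powerset, F (R \ L) L ≤ ∑ R, ∑ L, F R L := by
  rw [sum_comm' (t' := univ) (s' := fun L => univ.filter fun R => L ⊆ R) (by simp)]
  conv_rhs => rw [sum_comm]
  refine sum_le_sum fun L _ => sum_inj_le _ _ (· \ L) ?_ (fun _ _ => mem_univ _) (F · L)
    fun R => hF R L
  intro R hR R' hR' h
  simp only [coe_filter, mem_univ, true_and, Set.mem_ofPred_eq] at hR hR'
  rw [← union_sdiff_of_subset hR, ← union_sdiff_of_subset hR']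
  exact congrArg (L ∪ ·) h

open Classical in
lemma wt_sum {w : ℕ} (hw : ∀ i, (I i).card ≤ w) {u : ℝ} (hu : 0 ≤ u) (h1 : 64 * w * u ≤ 1)
    (R : Finset ι) : ∑ L : Finset ι, u ^ L.card * ∑ x, wt I a R L x ≤
      4 / 3 * ∑ y : ι → Bool, if ∃ i, Unf I a R i y then 1 else 0 := by
  have e1 : ∀ L x, u ^ L.card * wt I a R L x ≤ ∑ y : ι → Bool, (if ∃ i, Unf I a R i y then 1 else 0) *
      if Dec (fun i => I i \ R) a y L x then (4 * u) ^ L.card else 0 := fun L x => by
    have hn : ∀ y : ι → Bool, (0 : ℝ) ≤ (if ∃ i, Unf I a R i y then 1 else 0) *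
        if Dec (fun i => I i \ R) a y L x then (4 * u) ^ L.card else 0 := fun y => by
      split_ifs <;> positivity
    rw [wt]
    split_ifs with h
    · obtain ⟨⟨y, hy, hD⟩, h2⟩ := h
      refine le_trans (le_of_eq ?_) (single_le_sum (fun y _ => hn y) (mem_univ y))
      rw [if_pos hD, if_pos, one_mul, mul_pow, mul_comm]
      rcases Dec.inv hD with ⟨h3, rfl⟩ | ⟨i, B, S, y', hi, -⟩
      · exact h2 h3
      · exact ⟨i, by simpa using (Unf_sdiff R ∅ i y).1 hi.1⟩
    · rw [mul_zero]; exact sum_nonneg fun y _ => hn y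
  simp only [mul_sum]
  refine (sum_le_sum fun L _ => sum_le_sum fun x _ => e1 L x).trans ?_
  rw [sum_congr rfl fun L _ => sum_comm, sum_comm]
  refine sum_le_sum fun y _ => ?_
  simp only [← mul_sum]
  rw [mul_comm]
  refine mul_le_mul_of_nonneg_right ?_ (by split_ifs <;> simp)
  rw [← sum_product', univ_product_univ, ← sum_filter, ← sum_fiberwise_of_maps_to
    (t := range (Fintype.card ι + 1)) (g := fun q : Finset ι × (ι → Bool) => q.1.card)
    fun q _ => mem_range.2 (Nat.lt_succ_of_le (card_le_univ _))]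
  have e2 : ∑ k ∈ range (Fintype.card ι + 1), (1 / 4 : ℝ) ^ k ≤ 4 / 3 := by
    have := (summable_geometric_of_lt_one (r := 1 / 4) (by norm_num) (by norm_num)).sum_le_tsum
      (range (Fintype.card ι + 1)) fun _ _ => by positivity
    rw [tsum_geometric_of_lt_one (by norm_num) (by norm_num)] at this
    exact this.trans (by norm_num)
  refine le_trans (sum_le_sum fun k _ => ?_) e2
  rw [sum_congr rfl fun q hq => by rw [(mem_filter.1 hq).2], sum_const, nsmul_eq_mul]
  have e3 := Dec.card_le (I := fun i => I i \ R) (a := a)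
    (fun i => (card_le_card sdiff_subset).trans (hw i)) k y
  calc _ ≤ (4 * w) ^ k * (4 * u) ^ k := by
        refine mul_le_mul_of_nonneg_right (le_trans (le_of_eq ?_) e3) (by positivity)
        rw [← Set.ncard_coe_finset]
        congr 2; ext q; simp [and_comm]
    _ ≤ _ := by
        rw [← mul_pow]
        exact pow_le_pow_left₀ (by positivity) (by linarith) k

open Classical in
lemma free_le {w : ℕ} (hw : ∀ i, (I i).card ≤ w) {u : ℝ} (hu : 0 ≤ u) :
    ∑ R : Finset ι, u ^ R.card * ∑ y : ι → Bool, (if ∃ i, Unf I a R i y then 1 else 0) ≤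
      ∑ R : Finset ι, u ^ R.card * ((1 + u) ^ w * ∑ y, ∑ i, fst I a i y) := by
  let G : Finset ι → Finset ι → (ι → Bool) → ℝ := fun R V y =>
    if ∃ i, Fu I a R i y ∧ Unf I a ∅ i y ∧ V ⊆ I i then u ^ R.card * u ^ V.card else 0
  have hG : ∀ R V y, 0 ≤ G R V y := fun R V y => by simp only [G]; split_ifs <;> positivity
  have e1 : ∀ R y, u ^ R.card * (if ∃ i, Unf I a R i y then 1 else 0) ≤
      ∑ V ∈ R.powerset, G (R \ V) V (fl V y) := fun R y => by
    split_ifs with h
    · obtain ⟨i, hi⟩ := h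
      obtain ⟨j, hj⟩ := exists_Fu hi
      have hV : (I j ∩ R).filter (fun v => y v ≠ a j v) ⊆ R :=
        (filter_subset _ _).trans inter_subset_right
      refine le_trans (le_of_eq ?_) (single_le_sum (f := fun V => G (R \ V) V (fl V y))
        (fun _ _ => hG _ _ _) (mem_powerset.2 hV))
      have h1 : Unf I a ∅ j (fl ((I j ∩ R).filter fun v => y v ≠ a j v) y) := fun v hv _ => by
        by_cases h2 : y v = a j v
        · simp [fl, h2]
        · have h3 : v ∈ R := by_contra fun h3 => h2 (hj.1 v hv h3)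
          simp only [fl, mem_filter, mem_inter, hv, h3, h2, ne_eq, not_false_iff, and_self, if_true]
          revert h2
          cases y v <;> cases a j v <;> simp
      simp only [G]
      rw [if_pos, ← pow_add, card_sdiff_add_card_eq_card hV, mul_one]
      refine ⟨j, ⟨fun v hv _ => h1 v hv (notMem_empty v), fun l hl hu => hj.2 l hl fun v hv hR => ?_⟩,
        h1, (filter_subset _ _).trans inter_subset_left⟩
      have := hu v hv fun h => hR (mem_sdiff.1 h).1
      rwa [fl, if_neg fun h => hR (hV h)] at this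
    · rw [mul_zero]; exact sum_nonneg fun _ _ => hG _ _ _
  have e2 : ∀ R y, ∑ V, G R V y ≤ u ^ R.card * ((1 + u) ^ w * ∑ i, fst I a i y) := fun R y => by
    by_cases h : ∃ i, Fu I a R i y ∧ Unf I a ∅ i y
    · obtain ⟨i, hi, hi'⟩ := h
      obtain ⟨j, hj⟩ := exists_Fu hi'
      have h1 : 1 ≤ ∑ i, fst I a i y := le_trans (le_of_eq (if_pos hj).symm)
        (single_le_sum (f := fun i => fst I a i y) (fun i _ => fst_nonneg i y) (mem_univ j))
      have h2 : ∑ V, G R V y ≤ ∑ V ∈ (I i).powerset, u ^ R.card * u ^ V.card := by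
        rw [← univ_inter (I i).powerset, ← sum_ite_mem]
        refine sum_le_sum fun V _ => ?_
        simp only [G]
        split_ifs with h3 h4
        · exact le_rfl
        · obtain ⟨l, hl, -, hV⟩ := h3
          exact absurd (mem_powerset.2 (hi.unique hl ▸ hV)) h4
        · positivity
        · exact le_rfl
      have h3 : ∑ V ∈ (I i).powerset, u ^ V.card = (1 + u) ^ (I i).card := by
        rw [← prod_const, prod_one_add]; simp
      rw [← mul_sum, h3] at h2
      refine h2.trans (mul_le_mul_of_nonneg_left (le_trans ?_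
        (le_mul_of_one_le_right (by positivity) h1)) (by positivity))
      exact pow_le_pow_right₀ (by linarith) (hw i)
    · rw [sum_eq_zero fun V _ => if_neg fun ⟨i, h1, h2, _⟩ => h ⟨i, h1, h2⟩]
      exact mul_nonneg (by positivity) (mul_nonneg (by positivity)
        (sum_nonneg fun i _ => fst_nonneg i y))
  simp only [mul_sum (univ : Finset (ι → Bool))]
  refine (sum_le_sum fun R _ => sum_le_sum fun y _ => e1 R y).trans ?_
  rw [sum_congr rfl fun R _ => sum_comm]
  simp only [sum_fl _ (G _ _)]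
  refine (sum_split_le (fun R V => ∑ y, G R V y) fun R V => sum_nonneg fun y _ => hG R V y).trans
    (sum_le_sum fun R _ => ?_)
  rw [sum_comm]
  exact sum_le_sum fun y _ => e2 R y

/-- the second moment bound -/
theorem two_set {w : ℕ} (hw : ∀ i, (I i).card ≤ w) (h1 : 1 ≤ w) (t : κ → ι → ℝ)
    (ht : ∀ i v, |t i v - 1| ≤ 1 / (128 * w)) :
    ∑ x, unif x * (∑ i, |∑ S : Finset ι, (∏ v ∈ S, t i v) * hat (fst I a i) S * chi S x|) ^ 2 ≤
      2 * ∑ i, ∑ x, unif x * fst I a i x := by
  classical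
  have hw1 : (1 : ℝ) ≤ w := by exact_mod_cast h1
  obtain ⟨u, hu⟩ : ∃ u : ℝ, u = 1 / (64 * w) := ⟨_, rfl⟩
  have u0 : 0 < u := by rw [hu]; positivity
  have u1 : 64 * w * u = 1 := by rw [hu]; field_simp
  let s : κ → ι → ℝ := fun i v => ((1 + u) * t i v - 1) / u
  have hs : ∀ i v, |s i v - 1| ≤ 1 := fun i v => by
    have e : s i v - 1 = (1 + u) / u * (t i v - 1) := by simp only [s]; field_simp; ring
    have e' : (1 : ℝ) / (128 * w) = u / 2 := by rw [hu]; field_simp; norm_num
    rw [e, abs_mul, abs_of_pos (by positivity), div_mul_eq_mul_div, div_le_one u0]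
    have := ht i v
    rw [e'] at this
    nlinarith [abs_nonneg (t i v - 1)]
  obtain ⟨c, hc⟩ : ∃ c : ℝ, c = ∏ _v : ι, (1 + u)⁻¹ := ⟨_, rfl⟩
  have c0 : 0 ≤ c := by rw [hc]; positivity
  have mix : ∀ (g : ι → ℝ), ∑ R : Finset ι, c * u ^ R.card * ∏ v ∈ R, g v =
      ∏ v, (1 + u * g v) / (1 + u) := fun g => by
    simp only [mul_assoc, ← mul_sum, ← prod_const, ← prod_mul_distrib]
    rw [sum_subsets, hc, ← prod_mul_distrib]
    exact prod_congr rfl fun v _ => by field_simp
  have tot : ∑ R : Finset ι, c * u ^ R.card = 1 := by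
    have := mix fun _ => 1
    simp only [prod_const_one, mul_one, div_self (by positivity : 1 + u ≠ 0)] at this
    exact this
  have e1 : ∀ i x, ∑ S : Finset ι, (∏ v ∈ S, t i v) * hat (fst I a i) S * chi S x =
      ∑ R : Finset ι, c * u ^ R.card * U (fst I a i) (s i) R x := fun i x => by
    simp only [U, mul_sum]
    rw [sum_comm]
    refine sum_congr rfl fun S _ => ?_
    simp only [← mul_assoc, ← sum_mul]
    congr 2
    rw [sum_congr rfl fun R _ => by
      rw [prod_ite_mem, inter_comm, ← prod_ite_mem], mix, ← univ_inter S, ← prod_ite_mem]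
    refine prod_congr rfl fun v _ => ?_
    by_cases hv : v ∈ S <;> simp only [univ_inter, hv, if_true, if_false, s] <;> field_simp
    ring
  have e2 : ∀ x, (∑ i, |∑ S : Finset ι, (∏ v ∈ S, t i v) * hat (fst I a i) S * chi S x|) ^ 2 ≤
      ∑ R : Finset ι, c * u ^ R.card * BB I a s R x ^ 2 := fun x => by
    have h2 := cs_mul univ (fun R => BB I a s R x) (fun R : Finset ι => c * u ^ R.card)
      fun R => by positivity
    rw [tot, one_mul] at h2
    refine le_trans (pow_le_pow_left₀ (by positivity) ?_ 2) h2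
    simp only [e1, BB, mul_sum]
    rw [sum_comm]
    refine sum_le_sum fun i _ => (abs_sum_le_sum_abs _ _).trans (le_of_eq ?_)
    exact sum_congr rfl fun R _ => by rw [abs_mul, abs_of_nonneg (by positivity)]
  have e3 : ∑ R : Finset ι, u ^ R.card * ∑ x, BB I a s R x ^ 2 ≤
      ∑ R : Finset ι, ∑ L ∈ R.powerset, u ^ (R \ L).card * (u ^ L.card * ∑ x, wt I a (R \ L) L x) :=
    sum_le_sum fun R _ => by
      have h2 := tree (I := I) (a := a) hs R (fun _ => 1) (fun _ => zero_le_one) fun _ _ _ => rfl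
      simp only [one_mul] at h2
      refine (mul_le_mul_of_nonneg_left h2 (by positivity)).trans (le_of_eq ?_)
      rw [sum_comm, mul_sum]
      refine sum_congr rfl fun L hL => ?_
      rw [← mul_assoc, ← pow_add, card_sdiff_add_card_eq_card (mem_powerset.1 hL)]
  have e4 := e3.trans (sum_split_le (fun R L => u ^ R.card * (u ^ L.card * ∑ x, wt I a R L x))
    fun R L => mul_nonneg (by positivity) (mul_nonneg (by positivity)
      (sum_nonneg fun x _ => wt_nonneg _ _ _)))
  simp only [← mul_sum] at e4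
  have e5 := e4.trans (sum_le_sum fun R _ => mul_le_mul_of_nonneg_left
    (wt_sum (a := a) hw u0.le u1.le R) (by positivity))
  simp only [mul_left_comm _ (4 / 3 : ℝ), ← mul_sum] at e5
  have e6 := e5.trans (mul_le_mul_of_nonneg_left (free_le hw u0.le) (by norm_num))
  rw [← sum_mul] at e6
  have e7 : (1 + u) ^ w ≤ 3 / 2 := by
    calc (1 + u) ^ w ≤ Real.exp u ^ w := by
          gcongr; rw [add_comm]; exact Real.add_one_le_exp _
      _ = Real.exp (1 / 64) := by rw [← Real.exp_nat_mul]; congr 1; linarith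
      _ ≤ 3 / 2 := (Real.exp_bound_div_one_sub_of_interval (by norm_num) (by norm_num)).trans
          (by norm_num)
  have hN : 0 ≤ ∑ y, ∑ i, fst I a i y := sum_nonneg fun y _ => sum_nonneg fun i _ => fst_nonneg i y
  have e8 : ∑ x, ∑ R : Finset ι, c * u ^ R.card * BB I a s R x ^ 2 ≤ 2 * ∑ y, ∑ i, fst I a i y := by
    rw [sum_comm]
    simp only [mul_assoc, ← mul_sum] at tot ⊢
    refine (mul_le_mul_of_nonneg_left e6 c0).trans ?_
    rw [mul_left_comm, ← mul_assoc c, tot, one_mul]
    nlinarith [mul_le_mul_of_nonneg_right e7 hN]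
  simp only [unif, ← mul_sum]
  rw [sum_comm, mul_left_comm]
  exact mul_le_mul_of_nonneg_left ((sum_le_sum fun x _ => e2 x).trans e8) (by positivity)

theorem twoSet : TwoSet := fun _ _ _ _ _ _ _ _ _ hw h1 t ht => two_set hw h1 t ht

end Pool.Agent.Lib.MP_ee7726_lc.SB
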